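import Mathlib

set_option autoImplicit false

/-!
# The expanding case

Two commuting continuous maps `G`, `g` of the line with `|G x| = |x| + |g x|`, where `G` exchanges the two
half-lines: then `|g x| = α |x|` for some constant `α`.
-/

namespace Pool.Agent.K4H45.FE

open Set Function

/-- The algebraic step behind log-convexity. -/
lemma alg {N A B C P Q R : ℝ} (hN : 1 ≤ N) (hA : A = B + Q) (hB : B = C + R)
    (hR : 0 ≤ R) (hQ : 0 < Q) (hP : 0 ≤ P) (hB0 : 0 ≤ B)
    (h1 : N * B ^ 2 ≤ A * ((N - 1) * C + B)) (h2 : N * Q ^ 2 ≤ P * ((N - 1) * R + Q)) :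
    (N + 1) * A ^ 2 ≤ (A + P) * (N * B + A) := by
  have hD : 0 < (N - 1) * R + Q := by nlinarith
  have hC : C = B - R := by linarith
  have hB' : B = A - Q := by linarith
  have k1 : (N - 1) * A * R ≤ N * Q * B := by
    have hQ' : Q = A - B := by linarith
    rw [hQ']
    rw [hC] at h1
    nlinarith [h1]
  have hA0 : 0 < A := by linarith
  have k2 : A * ((N - 1) * R + Q) ≤ Q * (N * B + A) := by nlinarith [k1]
  have hNB : 0 ≤ N * B + A := by nlinarith
  have k3 : (N * A * Q) * ((N - 1) * R + Q) ≤ (P * (N * B + A)) * ((N - 1) * R + Q) := by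
    have e1 : N * Q * (A * ((N - 1) * R + Q)) ≤ N * Q * (Q * (N * B + A)) :=
      mul_le_mul_of_nonneg_left k2 (by nlinarith)
    have e2 : (N * Q ^ 2) * (N * B + A) ≤ (P * ((N - 1) * R + Q)) * (N * B + A) :=
      mul_le_mul_of_nonneg_right h2 hNB
    nlinarith [e1, e2]
  have k4 : N * A * Q ≤ P * (N * B + A) := le_of_mul_le_mul_right k3 hD
  have e : N * A * A = N * A * B + N * A * Q := by
    have : A * A = A * B + A * Q := by rw [← mul_add, ← hA]
    linear_combination N * this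
  nlinarith [k4, e]

/-- Two commuting continuous maps with `|G x| = |x| + |g x|`, where `G` flips the half-lines. -/
structure Exp (G g : ℝ → ℝ) : Prop where
  cG : Continuous G
  cg : Continuous g
  comm : ∀ x, g (G x) = G (g x)
  abs : ∀ x, |G x| = |x| + |g x|
  flip : ∀ x, x ≠ 0 → x * G x < 0
  g0 : g 0 = 0
  gne : ∀ x, x ≠ 0 → g x ≠ 0

namespace Exp

variable {G g : ℝ → ℝ} (h : Exp G g)
include h

lemma G0 : G 0 = 0 := by
  have := h.abs 0
  rw [h.g0] at this
  simpa using this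

lemma Gne {x : ℝ} (hx : x ≠ 0) : G x ≠ 0 := by
  intro h0
  have := h.flip x hx
  rw [h0] at this
  simp at this

lemma comm_iter (n : ℕ) (x : ℝ) : g (G^[n] x) = G^[n] (g x) := by
  have : Function.Commute g G := h.comm
  exact (this.iterate_right n) x

lemma abs_iter (n : ℕ) (x : ℝ) : |G^[n + 1] x| = |G^[n] x| + |G^[n] (g x)| := by
  rw [iterate_succ_apply', h.abs, h.comm_iter]

lemma le_abs_iter (n : ℕ) (x : ℝ) : |x| ≤ |G^[n] x| := by
  induction n with
  | zero => simp
  | succ n ih =>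
    rw [h.abs_iter]
    have := abs_nonneg (G^[n] (g x))
    linarith

lemma growth (n : ℕ) (x : ℝ) : |x| + n * |g x| ≤ |G^[n] x| := by
  induction n with
  | zero => simp
  | succ n ih =>
    rw [h.abs_iter]
    have := h.le_abs_iter n (g x)
    push_cast
    linarith

lemma surj : Function.Surjective G := by
  intro y
  apply mem_range_of_exists_le_of_exists_ge h.cG
  · refine ⟨|y| + 1, ?_⟩
    have h0 : (0 : ℝ) < |y| + 1 := by positivity
    have h1 := h.flip (|y| + 1) h0.ne'
    have h2 : G (|y| + 1) < 0 := by nlinarith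
    have h3 := h.abs (|y| + 1)
    rw [abs_of_neg h2, abs_of_pos h0] at h3
    have h4 := abs_nonneg (g (|y| + 1))
    have h5 := neg_abs_le y
    linarith
  · refine ⟨-(|y| + 1), ?_⟩
    have h0 : (0 : ℝ) < |y| + 1 := by positivity
    have h1 := h.flip (-(|y| + 1)) (by linarith)
    have h2 : 0 < G (-(|y| + 1)) := by nlinarith
    have h3 := h.abs (-(|y| + 1))
    rw [abs_of_pos h2, abs_neg, abs_of_pos h0] at h3
    have h4 := abs_nonneg (g (-(|y| + 1)))
    have h5 := le_abs_self y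
    linarith

lemma seq_ineq (n : ℕ) : ∀ u : ℝ,
    ((n : ℝ) + 2) * |G^[n + 1] u| ^ 2 ≤
      |G^[n + 2] u| * (((n : ℝ) + 1) * |G^[n] u| + |G^[n + 1] u|) := by
  induction n with
  | zero =>
    intro u
    have e1 := h.abs_iter 0 u
    have e2 := h.abs_iter 1 u
    have e3 := h.abs_iter 0 (g u)
    simp only [iterate_zero, id_eq, zero_add] at e1 e2 e3
    have a0 := abs_nonneg u
    have a1 := abs_nonneg (g u)
    have a2 := abs_nonneg (g (g u))
    simp only [iterate_zero, id_eq, zero_add, Nat.cast_zero]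
    have e2' : |G^[2] u| = |G^[1] u| + |G^[1] (g u)| := e2
    rw [e2', e1, e3]
    nlinarith [mul_nonneg a0 a1, mul_nonneg a0 a2, mul_nonneg a1 a2, mul_nonneg a1 a1]
  | succ n ih =>
    intro u
    rcases eq_or_ne u 0 with rfl | hu
    · have : ∀ k, G^[k] 0 = 0 := fun k => iterate_fixed h.G0 k
      simp [this]
    · have h1 := ih u
      have h2 := ih (g u)
      have e1 := h.abs_iter (n + 1) u
      have e2 := h.abs_iter n u
      have e3 := h.abs_iter (n + 2) u
      have hQ : 0 < |G^[n + 1] (g u)| := by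
        have := h.le_abs_iter (n + 1) (g u)
        have := abs_pos.mpr (h.gne u hu)
        linarith
      have key := alg (N := (n : ℝ) + 2) (A := |G^[n + 2] u|) (B := |G^[n + 1] u|)
        (C := |G^[n] u|) (P := |G^[n + 2] (g u)|) (Q := |G^[n + 1] (g u)|) (R := |G^[n] (g u)|)
        (by have : (0 : ℝ) ≤ n := Nat.cast_nonneg n
            linarith) e1 e2 (abs_nonneg _) hQ (abs_nonneg _) (abs_nonneg _)
        (by have e : ((n : ℝ) + 2 - 1) = n + 1 := by ring
            rw [e]; exact h1)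
        (by have e : ((n : ℝ) + 2 - 1) = n + 1 := by ring
            rw [e]; exact h2)
      have e4 : |G^[n + 1 + 2] u| = |G^[n + 2] u| + |G^[n + 2] (g u)| := e3
      rw [e4]
      push_cast
      have e5 : ((n : ℝ) + 1 + 2) = n + 2 + 1 := by ring
      have e6 : ((n : ℝ) + 1 + 1) = n + 2 := by ring
      rw [e5, e6]
      exact key

lemma kineq (x : ℝ) : |G x| ^ 2 ≤ |G (G x)| * |x| := by
  by_contra hcon
  push Not at hcon
  set A := |G (G x)|
  set B := |G x|
  set C := |x|
  have hpos : 0 < B ^ 2 - A * C := by linarith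
  obtain ⟨n, hn⟩ := exists_nat_gt ((A * B - B ^ 2) / (B ^ 2 - A * C))
  obtain ⟨u, hu⟩ := (h.surj.iterate n) x
  have h1 := h.seq_ineq n u
  have e1 : G^[n + 1] u = G x := by rw [iterate_succ_apply', hu]
  have e2 : G^[n + 2] u = G (G x) := by rw [iterate_succ_apply', e1]
  rw [e1, e2, hu] at h1
  rw [div_lt_iff₀ hpos] at hn
  change ((n : ℝ) + 2) * B ^ 2 ≤ A * (((n : ℝ) + 1) * C + B) at h1
  nlinarith [h1, hn, hpos]

lemma kin (x : ℝ) : |g x| ^ 2 ≤ |x| * |g (g x)| := by
  have h1 := h.kineq x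
  have e1 := h.abs x
  have e2 := h.abs (G x)
  have e3 := h.abs (g x)
  rw [h.comm] at e2
  rw [e2, e3, e1] at h1
  nlinarith [h1]

/-- the ratio -/
lemma q_g {x : ℝ} (hx : x ≠ 0) : |g x| / |x| ≤ |g (g x)| / |g x| := by
  rw [div_le_div_iff₀ (abs_pos.mpr hx) (abs_pos.mpr (h.gne x hx))]
  have := h.kin x
  nlinarith

lemma q_G {x : ℝ} (hx : x ≠ 0) : |g x| / |x| ≤ |g (G x)| / |G x| := by
  rw [div_le_div_iff₀ (abs_pos.mpr hx) (abs_pos.mpr (h.Gne hx)), h.comm, h.abs, h.abs]
  have := h.kin x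
  nlinarith

lemma q_Gg {x : ℝ} (hx : x ≠ 0) : |g (G x)| / |G x| ≤ |g (g x)| / |g x| := by
  rw [div_le_div_iff₀ (abs_pos.mpr (h.Gne hx)) (abs_pos.mpr (h.gne x hx)), h.comm, h.abs, h.abs]
  have := h.kin x
  nlinarith

lemma exists_max : ∃ x₀ : ℝ, x₀ ≠ 0 ∧ ∀ x, x ≠ 0 → |g x| / |x| ≤ |g x₀| / |x₀| := by
  obtain ⟨C, hC⟩ := isCompact_Icc.exists_bound_of_continuousOn
    (h.cG.continuousOn (s := Icc (-1 : ℝ) 1))
  set C' := max C 1 with hC'
  have hC'1 : 1 ≤ C' := le_max_right _ _
  have hb : ∀ x, |x| ≤ 1 → |G x| ≤ C' := by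
    intro x hx
    have := hC x (by rw [mem_Icc]; exact abs_le.mp hx)
    rw [Real.norm_eq_abs] at this
    exact this.trans (le_max_left _ _)
  -- small points
  have small : ∀ x, x ≠ 0 → |x| ≤ C' → ∃ y, 1 ≤ |y| ∧ |y| ≤ C' ∧ |g x| / |x| ≤ |g y| / |y| := by
    intro x hx hxC
    have hgx : 0 < |g x| := abs_pos.mpr (h.gne x hx)
    have hex : ∃ n : ℕ, 1 ≤ |G^[n] x| := by
      obtain ⟨n, hn⟩ := exists_nat_gt (1 / |g x|)
      refine ⟨n, ?_⟩
      have h1 := h.growth n x
      rw [div_lt_iff₀ hgx] at hn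
      have := abs_nonneg x
      linarith
    have hmono : ∀ n : ℕ, G^[n] x ≠ 0 ∧ |g x| / |x| ≤ |g (G^[n] x)| / |G^[n] x| := by
      intro n
      induction n with
      | zero => exact ⟨hx, le_rfl⟩
      | succ n ih =>
        rw [iterate_succ_apply']
        exact ⟨h.Gne ih.1, ih.2.trans (h.q_G ih.1)⟩
    classical
    set n := Nat.find hex with hn
    have h1 : 1 ≤ |G^[n] x| := Nat.find_spec hex
    refine ⟨G^[n] x, h1, ?_, (hmono n).2⟩
    rcases Nat.eq_zero_or_pos n with h0 | h0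
    · rw [h0]; simpa using hxC
    · obtain ⟨m, hm⟩ : ∃ m, n = m + 1 := ⟨n - 1, by omega⟩
      have h2 : ¬ 1 ≤ |G^[m] x| := Nat.find_min hex (by omega)
      rw [hm, iterate_succ_apply']
      apply hb
      push Not at h2
      exact h2.le
  have large : ∀ k : ℕ, ∀ x, x ≠ 0 → |x| ≤ C' + k →
      ∃ y, 1 ≤ |y| ∧ |y| ≤ C' ∧ |g x| / |x| ≤ |g y| / |y| := by
    intro k
    induction k with
    | zero => intro x hx hxk; exact small x hx (by simpa using hxk)
    | succ k ih =>
      intro x hx hxk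
      rcases le_or_gt (|x|) C' with hle | hgt
      · exact small x hx hle
      · obtain ⟨x', rfl⟩ := h.surj x
        have hx' : 1 < |x'| := by
          by_contra hcon
          push Not at hcon
          exact absurd (hb x' hcon) (not_le.mpr hgt)
        have hx'0 : x' ≠ 0 := by
          intro h0
          rw [h0] at hx'
          norm_num at hx'
        have hab := h.abs x'
        push_cast at hxk
        obtain ⟨y, hy1, hy2, hy3⟩ := ih (g x') (h.gne x' hx'0) (by linarith)
        exact ⟨y, hy1, hy2, (h.q_Gg hx'0).trans hy3⟩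
  -- compactness
  have hDc : IsCompact {y : ℝ | 1 ≤ |y| ∧ |y| ≤ C'} := by
    have : {y : ℝ | 1 ≤ |y| ∧ |y| ≤ C'} = Icc (-C') C' ∩ {y | 1 ≤ |y|} := by
      ext y
      simp only [mem_ofPred_eq, mem_inter_iff, mem_Icc, abs_le]
      tauto
    rw [this]
    exact isCompact_Icc.inter_right (isClosed_le continuous_const continuous_abs)
  have hDn : ({y : ℝ | 1 ≤ |y| ∧ |y| ≤ C'}).Nonempty := ⟨1, by simp [hC'1]⟩
  have hcont : ContinuousOn (fun y : ℝ => |g y| / |y|) {y : ℝ | 1 ≤ |y| ∧ |y| ≤ C'} := by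
    apply ContinuousOn.div (h.cg.abs.continuousOn) continuous_abs.continuousOn
    intro y hy
    have := hy.1
    intro h0
    rw [h0] at this
    norm_num at this
  obtain ⟨x₀, hx₀, hmax⟩ := hDc.exists_isMaxOn hDn hcont
  refine ⟨x₀, ?_, ?_⟩
  · intro h0
    have := hx₀.1
    rw [h0] at this
    norm_num at this
  · intro x hx
    obtain ⟨k, hk⟩ := exists_nat_gt (|x|)
    obtain ⟨y, hy1, hy2, hy3⟩ := large k x hx (by linarith)
    exact hy3.trans (hmax ⟨hy1, hy2⟩)

/-- **Expanding case.** -/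
theorem linear : ∃ α : ℝ, 0 < α ∧ ∀ x, |g x| = α * |x| := by
  obtain ⟨x₀, hx₀, hmax⟩ := h.exists_max
  set α := |g x₀| / |x₀| with hα
  have hα0 : 0 < α := div_pos (abs_pos.mpr (h.gne x₀ hx₀)) (abs_pos.mpr hx₀)
  have hle : ∀ x, |g x| ≤ α * |x| := by
    intro x
    rcases eq_or_ne x 0 with rfl | hx
    · simp [h.g0]
    · exact (div_le_iff₀ (abs_pos.mpr hx)).mp (hmax x hx)
  -- backward invariance
  have back : ∀ x, |g (G x)| = α * |G x| → |g x| = α * |x| := by
    intro x hx
    rw [h.comm, h.abs, h.abs] at hx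
    have h1 := hle x
    have h2 := hle (g x)
    nlinarith
  have forw : ∀ x, x ≠ 0 → |g x| = α * |x| → |g (G x)| = α * |G x| := by
    intro x hx hx1
    have h1 := h.q_G hx
    have h2 : |g x| / |x| = α := by
      rw [hx1]; field_simp
    rw [h2] at h1
    have h3 := (le_div_iff₀ (abs_pos.mpr (h.Gne hx))).mp h1
    exact le_antisymm (hle _) h3
  -- squeezing
  have sq : ∀ n : ℕ, ∀ x Q : ℝ, 0 < x * Q → |x| ≤ |Q| → |g Q| = α * |Q| →
      |x| * (1 + α) ^ n ≤ |Q| * (1 + |g x| / |x|) ^ n := by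
    intro n
    induction n with
    | zero => intro x Q _ h2 _; simpa using h2
    | succ n ih =>
      intro x Q h1 h2 h3
      obtain ⟨Q', rfl⟩ := h.surj Q
      have hQ'0 : Q' ≠ 0 := by
        rintro rfl
        rw [h.G0] at h1
        simp at h1
      have h3' := back Q' h3
      have hxm : x ∈ uIcc (G 0) (G Q') := by
        rw [h.G0, mem_uIcc]
        rcases lt_or_gt_of_ne (h.Gne hQ'0) with hneg | hpos
        · right
          have hx : x < 0 := by nlinarith
          rw [abs_of_neg hx, abs_of_neg hneg] at h2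
          exact ⟨by linarith, hx.le⟩
        · left
          have hx : 0 < x := by nlinarith
          rw [abs_of_pos hx, abs_of_pos hpos] at h2
          exact ⟨hx.le, h2⟩
      obtain ⟨x', hx', rfl⟩ := intermediate_value_uIcc h.cG.continuousOn hxm
      have hx'0 : x' ≠ 0 := by
        rintro rfl
        rw [h.G0] at h1
        simp at h1
      have hs : 0 < x' * Q' ∧ |x'| ≤ |Q'| := by
        rw [mem_uIcc] at hx'
        rcases hx' with ⟨ha, hb⟩ | ⟨ha, hb⟩
        · have hp : 0 < x' := lt_of_le_of_ne ha (Ne.symm hx'0)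
          have hp2 : 0 < Q' := by linarith
          exact ⟨mul_pos hp hp2, by rw [abs_of_pos hp, abs_of_pos hp2]; exact hb⟩
        · have hp : x' < 0 := lt_of_le_of_ne hb hx'0
          have hp2 : Q' < 0 := by linarith
          exact ⟨mul_pos_of_neg_of_neg hp hp2, by
            rw [abs_of_neg hp, abs_of_neg hp2]; linarith⟩
      have key := ih x' Q' hs.1 hs.2 h3'
      have e1 : |G x'| = (1 + |g x'| / |x'|) * |x'| := by
        rw [h.abs]
        have := abs_pos.mpr hx'0
        field_simp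
      have e2 : |G Q'| = (1 + α) * |Q'| := by
        rw [h.abs, h3']; ring
      have hr0 : 0 ≤ |g x'| / |x'| := by positivity
      have hmono : (1 + |g x'| / |x'|) ^ (n + 1) ≤ (1 + |g (G x')| / |G x'|) ^ (n + 1) := by
        apply pow_le_pow_left₀ (by linarith)
        linarith [h.q_G hx'0]
      calc |G x'| * (1 + α) ^ (n + 1) =
          (1 + |g x'| / |x'|) * (1 + α) * (|x'| * (1 + α) ^ n) := by rw [e1]; ring
        _ ≤ (1 + |g x'| / |x'|) * (1 + α) * (|Q'| * (1 + |g x'| / |x'|) ^ n) := by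
          apply mul_le_mul_of_nonneg_left key
          positivity
        _ = |G Q'| * (1 + |g x'| / |x'|) ^ (n + 1) := by rw [e2]; ring
        _ ≤ _ := mul_le_mul_of_nonneg_left hmono (abs_nonneg _)
  -- points of the maximal orbit
  have orb : ∀ n : ℕ, G^[n] x₀ ≠ 0 ∧ |g (G^[n] x₀)| = α * |G^[n] x₀| := by
    intro n
    induction n with
    | zero =>
      refine ⟨hx₀, ?_⟩
      simp only [iterate_zero, id_eq]
      rw [hα]
      have := abs_pos.mpr hx₀
      field_simp
    | succ n ih =>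
      rw [iterate_succ_apply']
      exact ⟨h.Gne ih.1, forw _ ih.1 ih.2⟩
  refine ⟨α, hα0, ?_⟩
  intro x
  rcases eq_or_ne x 0 with rfl | hx
  · simp [h.g0]
  apply le_antisymm (hle x)
  obtain ⟨n, hn⟩ := exists_nat_gt (|x| / |g x₀|)
  have hg0 : 0 < |g x₀| := abs_pos.mpr (h.gne x₀ hx₀)
  rw [div_lt_iff₀ hg0] at hn
  have hbig : ∀ m : ℕ, n ≤ m → |x| ≤ |G^[m] x₀| := by
    intro m hm
    have h1 := h.growth m x₀
    have h2 := abs_nonneg x₀
    have h3 : (n : ℝ) ≤ m := by exact_mod_cast hm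
    nlinarith
  obtain ⟨Q, hQ1, hQ2, hQ3⟩ : ∃ Q, 0 < x * Q ∧ |x| ≤ |Q| ∧ |g Q| = α * |Q| := by
    rcases lt_or_gt_of_ne (mul_ne_zero hx (orb n).1) with hneg | hpos
    · refine ⟨G^[n + 1] x₀, ?_, hbig _ (Nat.le_succ n), (orb (n + 1)).2⟩
      rw [iterate_succ_apply']
      have h1 := h.flip _ (orb n).1
      rcases lt_or_gt_of_ne (orb n).1 with h2 | h2
      · have h3 : 0 < x := by nlinarith
        have h4 : 0 < G (G^[n] x₀) := by nlinarith
        exact mul_pos h3 h4
      · have h3 : x < 0 := by nlinarith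
        have h4 : G (G^[n] x₀) < 0 := by nlinarith
        exact mul_pos_of_neg_of_neg h3 h4
    · exact ⟨G^[n] x₀, hpos, hbig n le_rfl, (orb n).2⟩
  by_contra hcon
  push Not at hcon
  have hxp := abs_pos.mpr hx
  have hr : |g x| / |x| < α := by
    rw [div_lt_iff₀ hxp]
    exact hcon
  have hr0 : 0 ≤ |g x| / |x| := by positivity
  have hρ : 1 < (1 + α) / (1 + |g x| / |x|) := by
    rw [one_lt_div (by linarith)]
    linarith
  obtain ⟨N, hN⟩ := pow_unbounded_of_one_lt (|Q| / |x|) hρ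
  have h1 := sq N x Q hQ1 hQ2 hQ3
  rw [div_pow, div_lt_div_iff₀ hxp (by positivity)] at hN
  linarith

end Exp

end Pool.Agent.K4H45.FE
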