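import Mathlib
import Pool.Agent.K4H45.FE.Expand

set_option autoImplicit false

/-!
# The contracting case

Two commuting continuous maps `A`, `B` of the line with `|A x| + |B x| = |x|`, one preserving and the other
exchanging the half-lines, `B` bijective: then `|A x| = α |x|` for some constant `α`.
-/

namespace Pool.Agent.K4H45.FE

open Set Function

/-- Two commuting continuous maps with `|A x| + |B x| = |x|`, and `B` bijective. -/
structure Con (A B : ℝ → ℝ) : Prop where
  cA : Continuous A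
  cB : Continuous B
  comm : ∀ x, B (A x) = A (B x)
  abs : ∀ x, |A x| + |B x| = |x|
  Ane : ∀ x, x ≠ 0 → A x ≠ 0
  Bne : ∀ x, x ≠ 0 → B x ≠ 0
  signs : (∀ x, x ≠ 0 → 0 < x * A x ∧ x * B x < 0) ∨ (∀ x, x ≠ 0 → x * A x < 0 ∧ 0 < x * B x)
  inj : Function.Injective B
  surj : Function.Surjective B

namespace Con

variable {A B : ℝ → ℝ} (h : Con A B)
include h

lemma A0 : A 0 = 0 := by
  have h1 := h.abs 0
  have h2 := abs_nonneg (A 0)
  have h3 := abs_nonneg (B 0)
  rw [abs_zero] at h1
  exact abs_eq_zero.mp (by linarith)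

lemma B0 : B 0 = 0 := by
  have h1 := h.abs 0
  have h2 := abs_nonneg (A 0)
  have h3 := abs_nonneg (B 0)
  rw [abs_zero] at h1
  exact abs_eq_zero.mp (by linarith)

lemma seq_ineq (n : ℕ) : ∀ x : ℝ,
    ((n : ℝ) + 1) * |A x| ^ 2 ≤ |x| * ((n : ℝ) * |A (A x)| + |A x|) := by
  induction n with
  | zero =>
    intro x
    have h1 := h.abs x
    have h2 := abs_nonneg (A x)
    have h3 := abs_nonneg (B x)
    have e : (((0 : ℕ) : ℝ) + 1) * |A x| ^ 2 = |A x| * |A x| := by push_cast; ring
    have e2 : |x| * (((0 : ℕ) : ℝ) * |A (A x)| + |A x|) = |x| * |A x| := by push_cast; ring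
    rw [e, e2]
    exact mul_le_mul_of_nonneg_right (by linarith) h2
  | succ n ih =>
    intro x
    rcases eq_or_ne x 0 with rfl | hx
    · simp [h.A0]
    · have h1 := ih (A x)
      have h2 := ih (B x)
      have e0 := h.abs x
      have e1 := h.abs (A x)
      have e2 := h.abs (A (A x))
      rw [h.comm] at e1
      rw [h.comm, h.comm] at e2
      have hQ : 0 < |A (B x)| := abs_pos.mpr (h.Ane _ (h.Bne x hx))
      have hn : (0 : ℝ) ≤ n := Nat.cast_nonneg n
      have key := alg (N := (n : ℝ) + 1) (A := |A x|) (B := |A (A x)|) (C := |A (A (A x))|)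
        (P := |B x|) (Q := |A (B x)|) (R := |A (A (B x))|) (by linarith) e1.symm e2.symm
        (abs_nonneg _) hQ (abs_nonneg _) (abs_nonneg _)
        (by have e : ((n : ℝ) + 1 - 1) = n := by ring
            rw [e]; exact h1)
        (by have e : ((n : ℝ) + 1 - 1) = n := by ring
            rw [e]; exact h2)
      rw [e0] at key
      push_cast
      exact key

lemma kin (x : ℝ) : |A x| ^ 2 ≤ |x| * |A (A x)| := by
  by_contra hcon
  push Not at hcon
  have hpos : 0 < |A x| ^ 2 - |x| * |A (A x)| := by linarith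
  obtain ⟨n, hn⟩ := exists_nat_gt ((|x| * |A x| - |A x| ^ 2) / (|A x| ^ 2 - |x| * |A (A x)|))
  have h1 := h.seq_ineq n x
  rw [div_lt_iff₀ hpos] at hn
  nlinarith [h1, hn, hpos]

lemma kin2 (x : ℝ) : |A (B x)| * |x| ≤ |A x| * |B x| := by
  have h1 := h.kin x
  have e0 := h.abs x
  have e1 := h.abs (A x)
  rw [h.comm] at e1
  have e2 : |A (B x)| = |A x| - |A (A x)| := by linarith
  have e3 : |B x| = |x| - |A x| := by linarith
  rw [e2, e3]
  nlinarith

lemma r_A {x : ℝ} (hx : x ≠ 0) : |A x| / |x| ≤ |A (A x)| / |A x| := by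
  rw [div_le_div_iff₀ (abs_pos.mpr hx) (abs_pos.mpr (h.Ane x hx))]
  have := h.kin x
  nlinarith

lemma r_B {x : ℝ} (hx : x ≠ 0) : |A (B x)| / |B x| ≤ |A x| / |x| := by
  rw [div_le_div_iff₀ (abs_pos.mpr (h.Bne x hx)) (abs_pos.mpr hx)]
  exact h.kin2 x

/-- `|A x|` does not decrease along `B`-preimages. -/
lemma A_pre (x : ℝ) : |A (B x)| ≤ |A x| := by
  have := h.abs (A x)
  rw [h.comm] at this
  have := abs_nonneg (A (A x))
  linarith

/-- `B` is monotone, in terms of moduli: on each half-line `|B|` is increasing. -/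
lemma B_mono {x y : ℝ} (hxy : 0 < x * y) (hle : |x| ≤ |y|) : |B x| ≤ |B y| ∧ 0 < B x * B y := by
  have hx0 : x ≠ 0 := by rintro rfl; simp at hxy
  have hy0 : y ≠ 0 := by rintro rfl; simp at hxy
  have hsgn : 0 < B x * B y := by
    rcases h.signs with hs | hs
    · have h1 := (hs x hx0).2
      have h2 := (hs y hy0).2
      have h3 : 0 < (x * B x) * (y * B y) := mul_pos_of_neg_of_neg h1 h2
      have h4 : (x * B x) * (y * B y) = (x * y) * (B x * B y) := by ring
      rw [h4] at h3
      exact (mul_pos_iff_of_pos_left hxy).mp h3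
    · have h1 := (hs x hx0).2
      have h2 := (hs y hy0).2
      have h3 : 0 < (x * B x) * (y * B y) := mul_pos h1 h2
      have h4 : (x * B x) * (y * B y) = (x * y) * (B x * B y) := by ring
      rw [h4] at h3
      exact (mul_pos_iff_of_pos_left hxy).mp h3
  refine ⟨?_, hsgn⟩
  have hB0 := h.B0
  rcases h.cB.strictMono_of_inj h.inj with hm | hm
  · rcases lt_or_gt_of_ne hx0 with hx | hx
    · have hy : y < 0 := by nlinarith
      rw [abs_of_neg hx, abs_of_neg hy] at hle
      have h1 := hm.monotone (show y ≤ x by linarith)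
      have h2 := hm hx
      have h3 := hm hy
      rw [hB0] at h2 h3
      rw [abs_of_neg h2, abs_of_neg h3]
      linarith
    · have hy : 0 < y := by nlinarith
      rw [abs_of_pos hx, abs_of_pos hy] at hle
      have h1 := hm.monotone hle
      have h2 := hm hx
      have h3 := hm hy
      rw [hB0] at h2 h3
      rw [abs_of_pos h2, abs_of_pos h3]
      linarith
  · rcases lt_or_gt_of_ne hx0 with hx | hx
    · have hy : y < 0 := by nlinarith
      rw [abs_of_neg hx, abs_of_neg hy] at hle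
      have h1 := hm.antitone (show y ≤ x by linarith)
      have h2 := hm hx
      have h3 := hm hy
      rw [hB0] at h2 h3
      rw [abs_of_pos h2, abs_of_pos h3]
      linarith
    · have hy : 0 < y := by nlinarith
      rw [abs_of_pos hx, abs_of_pos hy] at hle
      have h1 := hm.antitone hle
      have h2 := hm hx
      have h3 := hm hy
      rw [hB0] at h2 h3
      rw [abs_of_neg h2, abs_of_neg h3]
      linarith

lemma exists_max : ∃ x₀ : ℝ, x₀ ≠ 0 ∧ ∀ x, x ≠ 0 → |A x| / |x| ≤ |A x₀| / |x₀| := by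
  set δ := min |B 1| |B (-1)| with hδ
  have hδ0 : 0 < δ := lt_min (abs_pos.mpr (h.Bne 1 one_ne_zero))
    (abs_pos.mpr (h.Bne (-1) (by norm_num)))
  have hδ1 : δ ≤ 1 := by
    have h1 := h.abs 1
    have h2 := abs_nonneg (A 1)
    have h3 : δ ≤ |B 1| := min_le_left _ _
    rw [abs_one] at h1
    linarith
  -- lower bound for `B` outside `[-1, 1]`
  have hout : ∀ x, 1 ≤ |x| → δ ≤ |B x| := by
    intro x hx
    rcases le_or_gt 0 x with h0 | h0
    · have h1 : 0 < 1 * x := by
        rw [abs_of_nonneg h0] at hx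
        linarith
      exact (min_le_left _ _).trans (h.B_mono h1 (by simpa using hx)).1
    · have h1 : 0 < (-1) * x := by linarith
      exact (min_le_right _ _).trans (h.B_mono h1 (by simpa using hx)).1
  -- preimages of small points
  have hpre : ∀ x, |x| ≤ δ → ∃ x', |x'| ≤ 1 ∧ B x' = x := by
    intro x hx
    obtain ⟨x', rfl⟩ := h.surj x
    refine ⟨x', ?_, rfl⟩
    by_contra hcon
    push Not at hcon
    have h1 : |B x'| = δ := le_antisymm hx (hout x' hcon.le)
    rcases lt_trichotomy x' 0 with h0 | h0 | h0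
    · have h2 : 0 < (-1) * x' := by linarith
      have h3 := h.B_mono h2 (by simpa using hcon.le)
      have h4 : |B (-1)| = |B x'| := le_antisymm h3.1 (by rw [h1]; exact min_le_right _ _)
      have h5 : B (-1) = B x' := by
        rcases abs_eq_abs.mp h4 with h5 | h5
        · exact h5
        · rw [h5] at h3
          have := mul_self_nonneg (B x')
          linarith [h3.2]
      have h6 := h.inj h5
      rw [← h6] at hcon
      norm_num at hcon
    · rw [h0] at hcon
      norm_num at hcon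
    · have h2 : 0 < 1 * x' := by linarith
      have h3 := h.B_mono h2 (by simpa using hcon.le)
      have h4 : |B 1| = |B x'| := le_antisymm h3.1 (by rw [h1]; exact min_le_left _ _)
      have h5 : B 1 = B x' := by
        rcases abs_eq_abs.mp h4 with h5 | h5
        · exact h5
        · rw [h5] at h3
          have := mul_self_nonneg (B x')
          linarith [h3.2]
      have h6 := h.inj h5
      rw [← h6] at hcon
      norm_num at hcon
  have small : ∀ k : ℕ, ∀ x, x ≠ 0 → |x| ≤ 1 → δ ≤ |x| + k * |A x| →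
      ∃ y, δ ≤ |y| ∧ |y| ≤ 1 ∧ |A x| / |x| ≤ |A y| / |y| := by
    intro k
    induction k with
    | zero => intro x hx h1 h2; exact ⟨x, by simpa using h2, h1, le_rfl⟩
    | succ k ih =>
      intro x hx h1 h2
      rcases le_or_gt δ |x| with h3 | h3
      · exact ⟨x, h3, h1, le_rfl⟩
      · obtain ⟨x', hx'1, rfl⟩ := hpre x h3.le
        have hx'0 : x' ≠ 0 := by
          rintro rfl
          exact hx h.B0
        have h4 := h.A_pre x'
        have h5 := h.abs x'
        push_cast at h2
        have hk : (0 : ℝ) ≤ k := Nat.cast_nonneg k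
        have h6 : (k : ℝ) * |A (B x')| ≤ k * |A x'| := mul_le_mul_of_nonneg_left h4 hk
        obtain ⟨y, hy1, hy2, hy3⟩ := ih x' hx'0 hx'1 (by nlinarith)
        exact ⟨y, hy1, hy2, (h.r_B hx'0).trans hy3⟩
  have large : ∀ k : ℕ, ∀ x, x ≠ 0 → |x| ≤ 1 + k * δ →
      ∃ y, δ ≤ |y| ∧ |y| ≤ 1 ∧ |A x| / |x| ≤ |A y| / |y| := by
    have base : ∀ x, x ≠ 0 → |x| ≤ 1 → ∃ y, δ ≤ |y| ∧ |y| ≤ 1 ∧ |A x| / |x| ≤ |A y| / |y| := by
      intro x hx hx1
      have hAx : 0 < |A x| := abs_pos.mpr (h.Ane x hx)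
      obtain ⟨k, hk⟩ := exists_nat_gt (δ / |A x|)
      rw [div_lt_iff₀ hAx] at hk
      exact small k x hx hx1 (by have := abs_nonneg x; linarith)
    intro k
    induction k with
    | zero => intro x hx hxk; exact base x hx (by simpa using hxk)
    | succ k ih =>
      intro x hx hxk
      rcases le_or_gt |x| 1 with h1 | h1
      · exact base x hx h1
      · have h2 := hout x h1.le
        have h3 := h.abs x
        push_cast at hxk
        obtain ⟨y, hy1, hy2, hy3⟩ := ih (A x) (h.Ane x hx) (by nlinarith)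
        exact ⟨y, hy1, hy2, (h.r_A hx).trans hy3⟩
  have hDc : IsCompact {y : ℝ | δ ≤ |y| ∧ |y| ≤ 1} := by
    have : {y : ℝ | δ ≤ |y| ∧ |y| ≤ 1} = Icc (-1) 1 ∩ {y | δ ≤ |y|} := by
      ext y
      simp only [mem_ofPred_eq, mem_inter_iff, mem_Icc, abs_le]
      tauto
    rw [this]
    exact isCompact_Icc.inter_right (isClosed_le continuous_const continuous_abs)
  have hDn : ({y : ℝ | δ ≤ |y| ∧ |y| ≤ 1}).Nonempty := ⟨1, by simp [hδ1]⟩
  have hcont : ContinuousOn (fun y : ℝ => |A y| / |y|) {y : ℝ | δ ≤ |y| ∧ |y| ≤ 1} := by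
    apply ContinuousOn.div (h.cA.abs.continuousOn) continuous_abs.continuousOn
    intro y hy
    have := hy.1
    exact (lt_of_lt_of_le hδ0 this).ne'
  obtain ⟨x₀, hx₀, hmax⟩ := hDc.exists_isMaxOn hDn hcont
  refine ⟨x₀, abs_pos.mp (lt_of_lt_of_le hδ0 hx₀.1), ?_⟩
  intro x hx
  obtain ⟨k, hk⟩ := exists_nat_gt (|x| / δ)
  rw [div_lt_iff₀ hδ0] at hk
  obtain ⟨y, hy1, hy2, hy3⟩ := large k x hx (by linarith)
  exact hy3.trans (hmax ⟨hy1, hy2⟩)

/-- **Contracting case.** -/
theorem linear : ∃ α : ℝ, 0 < α ∧ α < 1 ∧ ∀ x, |A x| = α * |x| := by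
  obtain ⟨x₀, hx₀, hmax⟩ := h.exists_max
  set α := |A x₀| / |x₀| with hα
  have hx₀p : 0 < |x₀| := abs_pos.mpr hx₀
  have hα0 : 0 < α := div_pos (abs_pos.mpr (h.Ane x₀ hx₀)) hx₀p
  have hα1 : α < 1 := by
    rw [hα, div_lt_one hx₀p]
    have h1 := h.abs x₀
    have h2 := abs_pos.mpr (h.Bne x₀ hx₀)
    linarith
  have hle : ∀ x, |A x| ≤ α * |x| := by
    intro x
    rcases eq_or_ne x 0 with rfl | hx
    · simp [h.A0]
    · exact (div_le_iff₀ (abs_pos.mpr hx)).mp (hmax x hx)
  have hS0 : |A x₀| = α * |x₀| := by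
    rw [hα]; field_simp
  -- the set of points with ratio `α` is invariant
  have SA : ∀ x, |A x| = α * |x| → |A (A x)| = α * |A x| := by
    intro x hx
    rcases eq_or_ne x 0 with rfl | hx0
    · simp [h.A0]
    · apply le_antisymm (hle _)
      have h1 := h.kin x
      have h2 := abs_pos.mpr hx0
      rw [hx] at h1 ⊢
      have h3 : |x| * (α * (α * |x|)) ≤ |x| * |A (A x)| := by nlinarith
      exact le_of_mul_le_mul_left h3 h2
  have SB : ∀ x, |A x| = α * |x| → |A (B x)| = α * |B x| := by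
    intro x hx
    have e0 := h.abs x
    have e1 := h.abs (A x)
    rw [h.comm] at e1
    have e2 := SA x hx
    nlinarith
  have Spre : ∀ x, |A (B x)| = α * |B x| → |A x| = α * |x| := by
    intro x hx
    rcases eq_or_ne x 0 with rfl | hx0
    · simp [h.A0]
    · apply le_antisymm (hle _)
      have h1 := h.kin2 x
      have h2 := abs_pos.mpr (h.Bne x hx0)
      rw [hx] at h1
      have h3 : |B x| * (α * |x|) ≤ |B x| * |A x| := by nlinarith
      exact le_of_mul_le_mul_left h3 h2
  -- `B ∘ B` preserves the half-lines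
  have hBB : ∀ x, x ≠ 0 → 0 < x * B (B x) := by
    intro x hx
    have hBx := h.Bne x hx
    rcases h.signs with hs | hs
    · have h1 := (hs x hx).2
      have h2 := (hs (B x) hBx).2
      have h3 : 0 < (x * B x) * (B x * B (B x)) := mul_pos_of_neg_of_neg h1 h2
      have h4 : (x * B x) * (B x * B (B x)) = (B x * B x) * (x * B (B x)) := by ring
      rw [h4] at h3
      exact (mul_pos_iff_of_pos_left (mul_self_pos.mpr hBx)).mp h3
    · have h1 := (hs x hx).2
      have h2 := (hs (B x) hBx).2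
      have h3 : 0 < (x * B x) * (B x * B (B x)) := mul_pos h1 h2
      have h4 : (x * B x) * (B x * B (B x)) = (B x * B x) * (x * B (B x)) := by ring
      rw [h4] at h3
      exact (mul_pos_iff_of_pos_left (mul_self_pos.mpr hBx)).mp h3
  have far : ∀ k : ℕ, ∀ x s : ℝ, 0 < x * s → |A s| = α * |s| → |x| ≤ |s| + k * |A s| →
      ∃ Q, 0 < x * Q ∧ |x| ≤ |Q| ∧ |A Q| = α * |Q| := by
    intro k
    induction k with
    | zero => intro x s h1 h2 h3; exact ⟨s, h1, by simpa using h3, h2⟩
    | succ k ih =>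
      intro x s h1 h2 h3
      obtain ⟨s', hs'⟩ := h.surj s
      obtain ⟨s'', hs''⟩ := h.surj s'
      have hs0 : s ≠ 0 := by rintro rfl; simp at h1
      have hs''0 : s'' ≠ 0 := by
        rintro rfl
        rw [h.B0] at hs''
        rw [← hs'', h.B0] at hs'
        exact hs0 hs'.symm
      have h4 : 0 < s'' * s := by
        have := hBB s'' hs''0
        rwa [hs'', hs'] at this
      have h5 : 0 < x * s'' := by
        have h6 : 0 < (x * s) * (s'' * s) := mul_pos h1 h4
        have h7 : (x * s) * (s'' * s) = (s * s) * (x * s'') := by ring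
        rw [h7] at h6
        exact (mul_pos_iff_of_pos_left (mul_self_pos.mpr hs0)).mp h6
      have hA1 : |A s'| = α * |s'| := Spre s' (by rw [hs']; exact h2)
      have hA2 : |A s''| = α * |s''| := Spre s'' (by rw [hs'']; exact hA1)
      have h6 := h.A_pre s'
      have h7 := h.A_pre s''
      rw [hs'] at h6
      rw [hs''] at h7
      have h8 := h.abs s'
      have h9 := h.abs s''
      rw [hs'] at h8
      rw [hs''] at h9
      push_cast at h3
      have hk : (0 : ℝ) ≤ k := Nat.cast_nonneg k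
      have h10 : (k : ℝ) * |A s| ≤ k * |A s''| := mul_le_mul_of_nonneg_left (h6.trans h7) hk
      exact ih x s'' h5 hA2 (by nlinarith [abs_nonneg (A s'')])
  -- squeezing
  have sq : ∀ n : ℕ, ∀ x Q : ℝ, 0 < x * Q → |x| ≤ |Q| → |A Q| = α * |Q| →
      |x| * (1 - |A x| / |x|) ^ n ≤ |Q| * (1 - α) ^ n := by
    intro n
    induction n with
    | zero => intro x Q _ h2 _; simpa using h2
    | succ n ih =>
      intro x Q h1 h2 h3
      have hx0 : x ≠ 0 := by rintro rfl; simp at h1
      have hxp := abs_pos.mpr hx0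
      obtain ⟨h4, h5⟩ := h.B_mono h1 h2
      have key := ih (B x) (B Q) h5 h4 (SB Q h3)
      have e1 : |B x| = (1 - |A x| / |x|) * |x| := by
        have := h.abs x
        field_simp
        linarith
      have e2 : |B Q| = (1 - α) * |Q| := by
        have := h.abs Q
        rw [h3] at this
        linarith
      have hr1 : |A x| / |x| ≤ 1 := by
        rw [div_le_one hxp]
        have := h.abs x
        have := abs_nonneg (B x)
        linarith
      have hmono : (1 - |A x| / |x|) ^ n ≤ (1 - |A (B x)| / |B x|) ^ n := by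
        apply pow_le_pow_left₀ (by linarith)
        linarith [h.r_B hx0]
      calc |x| * (1 - |A x| / |x|) ^ (n + 1) = |B x| * (1 - |A x| / |x|) ^ n := by
            rw [e1]; ring
        _ ≤ |B x| * (1 - |A (B x)| / |B x|) ^ n :=
            mul_le_mul_of_nonneg_left hmono (abs_nonneg _)
        _ ≤ |B Q| * (1 - α) ^ n := key
        _ = |Q| * (1 - α) ^ (n + 1) := by rw [e2]; ring
  refine ⟨α, hα0, hα1, ?_⟩
  intro x
  rcases eq_or_ne x 0 with rfl | hx
  · simp [h.A0]
  apply le_antisymm (hle x)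
  -- a point of ratio `α` on the side of `x`
  obtain ⟨s, hs1, hs2⟩ : ∃ s, 0 < x * s ∧ |A s| = α * |s| := by
    have hflip : ∃ s', s' * x₀ < 0 ∧ |A s'| = α * |s'| := by
      rcases h.signs with hs | hs
      · exact ⟨B x₀, by rw [mul_comm]; exact (hs x₀ hx₀).2, SB x₀ hS0⟩
      · exact ⟨A x₀, by rw [mul_comm]; exact (hs x₀ hx₀).1, SA x₀ hS0⟩
    obtain ⟨s', hs'1, hs'2⟩ := hflip
    rcases lt_or_gt_of_ne (mul_ne_zero hx hx₀) with hneg | hpos
    · refine ⟨s', ?_, hs'2⟩
      have h6 : 0 < (x * x₀) * (s' * x₀) := mul_pos_of_neg_of_neg hneg hs'1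
      have h7 : (x * x₀) * (s' * x₀) = (x₀ * x₀) * (x * s') := by ring
      rw [h7] at h6
      exact (mul_pos_iff_of_pos_left (mul_self_pos.mpr hx₀)).mp h6
    · exact ⟨x₀, hpos, hS0⟩
  have hs0 : s ≠ 0 := by rintro rfl; simp at hs1
  have hAs : 0 < |A s| := abs_pos.mpr (h.Ane s hs0)
  obtain ⟨k, hk⟩ := exists_nat_gt (|x| / |A s|)
  rw [div_lt_iff₀ hAs] at hk
  obtain ⟨Q, hQ1, hQ2, hQ3⟩ := far k x s hs1 hs2 (by have := abs_nonneg s; linarith)
  by_contra hcon
  push Not at hcon
  have hxp := abs_pos.mpr hx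
  have hr : |A x| / |x| < α := by
    rw [div_lt_iff₀ hxp]
    exact hcon
  have hρ : 1 < (1 - |A x| / |x|) / (1 - α) := by
    rw [one_lt_div (by linarith)]
    linarith
  obtain ⟨N, hN⟩ := pow_unbounded_of_one_lt (|Q| / |x|) hρ
  have h1 := sq N x Q hQ1 hQ2 hQ3
  have h2 : (0 : ℝ) < (1 - α) ^ N := pow_pos (by linarith) N
  rw [div_pow, div_lt_div_iff₀ hxp h2] at hN
  linarith

end Con

end Pool.Agent.K4H45.FE
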