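import Mathlib
import Pool.Agent.K4H45.FE.Contract

set_option autoImplicit false

/-!
# Sign analysis of the continuous solutions of `f (x + f x) = f x + f (f x)`
-/

namespace Pool.Agent.K4H45.FE

open Set Function

/-! ### Crossings -/

lemma last_below {H : ℝ → ℝ} (hH : Continuous H) {a b v : ℝ} (hab : a ≤ b) (ha : v ≤ H a)
    (hb : H b < v) : ∃ c ∈ Ico a b, H c = v ∧ ∀ x ∈ Ioc c b, H x < v := by
  have hne : ({x | x ∈ Icc a b ∧ H x = v}).Nonempty := by
    obtain ⟨c, hc, hcv⟩ := intermediate_value_Icc' hab hH.continuousOn ⟨hb.le, ha⟩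
    exact ⟨c, hc, hcv⟩
  have hcl : IsCompact {x | x ∈ Icc a b ∧ H x = v} := by
    have : {x | x ∈ Icc a b ∧ H x = v} = Icc a b ∩ H ⁻¹' {v} := by ext; simp
    rw [this]
    exact isCompact_Icc.inter_right (isClosed_singleton.preimage hH)
  obtain ⟨c, ⟨hc, hcv⟩, hmax⟩ := hcl.exists_isGreatest hne
  have hcb : c ≠ b := by rintro rfl; linarith
  refine ⟨c, ⟨hc.1, lt_of_le_of_ne hc.2 hcb⟩, hcv, ?_⟩
  intro x hx
  by_contra hcon
  push Not at hcon
  obtain ⟨c', hc', hc'v⟩ := intermediate_value_Icc' hx.2 hH.continuousOn ⟨hb.le, hcon⟩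
  have := hmax ⟨⟨by linarith [hc.1, hx.1, hc'.1], hc'.2⟩, hc'v⟩
  linarith [hx.1, hc'.1]

lemma first_below {H : ℝ → ℝ} (hH : Continuous H) {a b v : ℝ} (hab : a ≤ b) (ha : H a < v)
    (hb : v ≤ H b) : ∃ c ∈ Ioc a b, H c = v ∧ ∀ x ∈ Ico a c, H x < v := by
  obtain ⟨c, hc, hcv, hlt⟩ := last_below (H := fun x => H (-x)) (hH.comp continuous_neg)
    (a := -b) (b := -a) (v := v) (by linarith) (by simpa using hb) (by simpa using ha)
  refine ⟨-c, ⟨by linarith [hc.2], by linarith [hc.1]⟩, hcv, ?_⟩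
  intro x hx
  have := hlt (-x) ⟨by linarith [hx.2], by linarith [hx.1]⟩
  simpa using this

lemma last_above {H : ℝ → ℝ} (hH : Continuous H) {a b v : ℝ} (hab : a ≤ b) (ha : H a ≤ v)
    (hb : v < H b) : ∃ c ∈ Ico a b, H c = v ∧ ∀ x ∈ Ioc c b, v < H x := by
  obtain ⟨c, hc, hcv, hlt⟩ := last_below (H := fun x => -H x) hH.neg
    (a := a) (b := b) (v := -v) hab (by linarith) (by linarith)
  exact ⟨c, hc, by linarith, fun x hx => by linarith [hlt x hx]⟩

lemma first_above {H : ℝ → ℝ} (hH : Continuous H) {a b v : ℝ} (hab : a ≤ b) (ha : v < H a)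
    (hb : H b ≤ v) : ∃ c ∈ Ioc a b, H c = v ∧ ∀ x ∈ Ico a c, v < H x := by
  obtain ⟨c, hc, hcv, hlt⟩ := first_below (H := fun x => -H x) hH.neg
    (a := a) (b := b) (v := -v) hab (by linarith) (by linarith)
  exact ⟨c, hc, by linarith, fun x hx => by linarith [hlt x hx]⟩

lemma pos_on {H : ℝ → ℝ} (hH : Continuous H) {s : Set ℝ} (hs : s.OrdConnected)
    (hne : ∀ x ∈ s, H x ≠ 0) {x₀ : ℝ} (hx₀ : x₀ ∈ s) (h0 : 0 < H x₀) : ∀ x ∈ s, 0 < H x := by
  intro x hx
  by_contra hc
  push Not at hc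
  have h1 : (0 : ℝ) ∈ uIcc (H x) (H x₀) := mem_uIcc.2 (Or.inl ⟨hc, h0.le⟩)
  obtain ⟨c, hc1, hc2⟩ := intermediate_value_uIcc hH.continuousOn h1
  exact hne c (hs.uIcc_subset hx hx₀ hc1) hc2

lemma neg_on {H : ℝ → ℝ} (hH : Continuous H) {s : Set ℝ} (hs : s.OrdConnected)
    (hne : ∀ x ∈ s, H x ≠ 0) {x₀ : ℝ} (hx₀ : x₀ ∈ s) (h0 : H x₀ < 0) : ∀ x ∈ s, H x < 0 := by
  intro x hx
  have := pos_on (H := fun x => -H x) hH.neg hs (fun x hx => neg_ne_zero.mpr (hne x hx)) hx₀
    (by linarith) x hx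
  linarith

/-- A function which is small along arithmetic progressions with small step starting near `c`
vanishes to the right of `c`. -/
lemma dense_prog {H : ℝ → ℝ} (hH : Continuous H) {c : ℝ}
    (hp : ∀ ε > 0, ∃ x s : ℝ, c < x ∧ x < c + ε ∧ 0 < s ∧ s < ε ∧ ∀ n : ℕ, |H (x + n * s)| ≤ ε) :
    ∀ w, c < w → H w = 0 := by
  intro w hw
  by_contra hne
  have hη : 0 < |H w| / 2 := by positivity
  obtain ⟨ρ, hρ, hcont⟩ := Metric.continuous_iff.mp hH w (|H w| / 2) hη
  obtain ⟨x, s, hx1, hx2, hs1, hs2, hn⟩ := hp (min (min ρ (|H w| / 2)) (w - c))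
    (lt_min (lt_min hρ hη) (by linarith))
  have hxw : x < w := by
    have := min_le_right (min ρ (|H w| / 2)) (w - c)
    linarith
  have hsρ : s < ρ := lt_of_lt_of_le hs2 ((min_le_left _ _).trans (min_le_left _ _))
  set n := ⌊(w - x) / s⌋₊ with hndef
  have h1 : (n : ℝ) ≤ (w - x) / s := Nat.floor_le (by apply div_nonneg <;> linarith)
  have h2 : (w - x) / s < n + 1 := Nat.lt_floor_add_one _
  rw [le_div_iff₀ hs1] at h1
  rw [div_lt_iff₀ hs1] at h2
  have h3 : dist (x + n * s) w < ρ := by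
    rw [Real.dist_eq, abs_lt]
    constructor <;> nlinarith
  have h4 := hcont _ h3
  rw [Real.dist_eq] at h4
  have h5 := hn n
  have h6 : min (min ρ (|H w| / 2)) (w - c) ≤ |H w| / 2 :=
    (min_le_left _ _).trans (min_le_right _ _)
  have h7 : |H w| ≤ |H (x + n * s)| + |H (x + n * s) - H w| := by
    have := abs_sub_abs_le_abs_sub (H w) (H (x + n * s))
    rw [abs_sub_comm] at this
    linarith
  linarith

/-- Continuous solutions of the functional equation. -/
structure Sol (f : ℝ → ℝ) : Prop where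
  cont : Continuous f
  eq : ∀ x, f (x + f x) = f x + f (f x)

namespace Sol

variable {f : ℝ → ℝ} (h : Sol f)
include h

lemma zero : f 0 = 0 := by
  have := h.eq 0
  simp only [zero_add] at this
  linarith

lemma reflect : Sol (fun x => -f (-x)) where
  cont := (h.cont.comp continuous_neg).neg
  eq := by
    intro x
    have h1 := h.eq (-x)
    have e1 : -(x + -f (-x)) = -x + f (-x) := by ring
    have e2 : - -f (-x) = f (-x) := by ring
    simp only [e1, e2, h1]
    ring

lemma contF : Continuous (fun x => x + f x) := continuous_id.add h.cont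

lemma prog {x y : ℝ} (hx : f x = y) (hy : f y = 0) (n : ℕ) : f (x + n * y) = y := by
  induction n with
  | zero => simpa using hx
  | succ n ih =>
    have h1 := h.eq (x + n * y)
    rw [ih, hy, add_zero] at h1
    have e : x + ((n + 1 : ℕ) : ℝ) * y = x + n * y + y := by push_cast; ring
    rw [e, h1]

lemma Ksym {y : ℝ} (hy : y + f y = 0) : -y + f (-y) = 0 := by
  have h1 := h.eq y
  rw [hy, h.zero] at h1
  have h2 : f y = -y := by linarith
  rw [h2] at h1
  exact h1.symm

/-- Trichotomy of the germ at `0+`. -/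
lemma germ : (∃ δ > 0, ∀ x ∈ Ioo (0 : ℝ) δ, 0 < f x) ∨ (∃ δ > 0, ∀ x ∈ Ioo (0 : ℝ) δ, f x < 0) ∨
    (∃ δ > 0, ∀ x ∈ Ioo (0 : ℝ) δ, f x = 0) := by
  by_contra hcon
  push Not at hcon
  obtain ⟨h1, h2, h3⟩ := hcon
  have hz : ∀ δ > 0, ∃ z ∈ Ioo (0 : ℝ) δ, f z = 0 := by
    intro δ hδ
    obtain ⟨x1, hx1, hf1⟩ := h1 δ hδ
    obtain ⟨x2, hx2, hf2⟩ := h2 δ hδ
    obtain ⟨z, hz1, hz2⟩ := intermediate_value_uIcc h.cont.continuousOn
      (mem_uIcc.2 (Or.inl ⟨hf1, hf2⟩) : (0 : ℝ) ∈ uIcc (f x1) (f x2))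
    exact ⟨z, (ordConnected_Ioo).uIcc_subset hx1 hx2 hz1, hz2⟩
  -- Step 1
  have hK : ∃ y > 0, y + f y = 0 := by
    obtain ⟨b0, hb0, hfb0⟩ := hz 1 one_pos
    obtain ⟨x0, hx0, hfx0⟩ := h3 b0 hb0.1
    obtain ⟨a0, ha0, hfa0⟩ := hz x0 hx0.1
    rcases lt_or_gt_of_ne hfx0 with hneg | hpos
    · obtain ⟨a, ha, hfa, haf⟩ := last_below h.cont ha0.2.le hfa0.ge hneg
      obtain ⟨b, hb, hfb, hbf⟩ := first_below h.cont hx0.2.le hneg hfb0.ge
      have hab : ∀ x ∈ Ioo a b, f x < 0 := by
        intro x hx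
        rcases le_or_gt x x0 with h4 | h4
        · exact haf x ⟨hx.1, h4⟩
        · exact hbf x ⟨h4.le, hx.2⟩
      by_cases hF : ∃ x ∈ Ioo a b, x + f x ≤ a
      · obtain ⟨x, hx, hxF⟩ := hF
        obtain ⟨x', hx', hx'F⟩ := intermediate_value_Icc hx.2.le h.contF.continuousOn
          (show a ∈ Icc (x + f x) (b + f b) from ⟨hxF, by rw [hfb]; linarith [hx.1, hx.2]⟩)
        simp only at hx'F
        have hxa : a < x' := lt_of_lt_of_le hx.1 hx'.1
        have h5 := h.eq x'
        rw [hx'F, hfa] at h5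
        have h6 := h.Ksym h5.symm
        refine ⟨-f x', by linarith, h6⟩
      · exfalso
        push Not at hF
        have hpre : ∀ v ∈ Ico (f x0) 0, ∃ c ∈ Ioc a x0, f c = v ∧ ∀ x ∈ Ico a c, v < f x := by
          intro v hv
          exact first_above h.cont ha.2.le (by rw [hfa]; exact hv.2) hv.1
        have hpos' : ∀ v ∈ Ico (f x0) 0, 0 < f v := by
          intro v hv
          obtain ⟨c, hc, hfc, hcv⟩ := hpre v hv
          have hcab : c ∈ Ioo a b := ⟨hc.1, lt_of_le_of_lt hc.2 hb.1⟩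
          have h4 := hcv (c + f c) ⟨(hF c hcab).le, by rw [hfc]; linarith [hv.2]⟩
          rw [h.eq, hfc] at h4
          linarith
        have hm := hpos' (f x0) ⟨le_rfl, hneg⟩
        obtain ⟨z, hzm, hfz⟩ := hz (f (f x0)) hm
        obtain ⟨c, hc, hfc, hcz⟩ := last_below h.cont hneg.le hzm.2.le
          (by rw [h.zero]; exact hzm.1)
        obtain ⟨x', hx', hfx', -⟩ := hpre c hc
        have hx'ab : x' ∈ Ioo a b := ⟨hx'.1, lt_of_le_of_lt hx'.2 hb.1⟩
        have hFx' : x' + f x' ∈ Ioo a b := ⟨hF x' hx'ab, by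
          have := hab x' hx'ab
          linarith [hx'ab.2]⟩
        have h4 : c + f c < 0 := by
          have h5 := hab _ hFx'
          rw [h.eq, hfx'] at h5
          exact h5
        have h6 := hcz (c + f c) ⟨by rw [hfc]; linarith [hzm.1], h4.le⟩
        rw [h.eq, hfc, hfz] at h6
        linarith
    · obtain ⟨a, ha, hfa, haf⟩ := last_above h.cont ha0.2.le hfa0.le hpos
      obtain ⟨b, hb, hfb, hbf⟩ := first_above h.cont hx0.2.le hpos hfb0.le
      by_cases hF : ∃ x ∈ Ioo a b, b ≤ x + f x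
      · obtain ⟨x, hx, hxF⟩ := hF
        obtain ⟨x', hx', hx'F⟩ := intermediate_value_Icc hx.1.le h.contF.continuousOn
          (show b ∈ Icc (a + f a) (x + f x) from ⟨by rw [hfa]; linarith [hx.1, hx.2], hxF⟩)
        simp only at hx'F
        have hxb : x' < b := lt_of_le_of_lt hx'.2 hx.2
        have h5 := h.eq x'
        rw [hx'F, hfb] at h5
        exact ⟨f x', by linarith, h5.symm⟩
      · exfalso
        push Not at hF
        obtain ⟨z, hzm, hfz⟩ := hz (f x0) hpos
        obtain ⟨c, hc, hfc, hcz⟩ := last_below h.cont hb.1.le hzm.2.le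
          (by rw [hfb]; exact hzm.1)
        have hcab : c ∈ Ioo a b := ⟨lt_of_lt_of_le ha.2 hc.1, hc.2⟩
        have h6 := hcz (c + f c) ⟨by rw [hfc]; linarith [hzm.1], (hF c hcab).le⟩
        rw [h.eq, hfc, hfz] at h6
        linarith
  -- Step 2
  obtain ⟨y, hy, hFy⟩ := hK
  obtain ⟨a1, ha1, hfa1⟩ := hz y hy
  obtain ⟨a, ha, hfa, haf⟩ := last_below h.cont ha1.2.le hfa1.ge (show f y < 0 by linarith)
  have ha0 : 0 < a := lt_of_lt_of_le ha1.1 ha.1
  obtain ⟨y1, hy1, hFy1, hy1F⟩ := first_above h.contF ha.2.le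
    (show (0 : ℝ) < a + f a by rw [hfa]; linarith) hFy.le
  obtain ⟨ε, hε, hcont⟩ := Metric.continuous_iff.mp h.contF a (a / 2) (by linarith)
  obtain ⟨w, hw, hfw⟩ := hz (min ε (a / 2)) (lt_min hε (by linarith))
  have hw1 : w < ε := lt_of_lt_of_le hw.2 (min_le_left _ _)
  have hw2 : w < a / 2 := lt_of_lt_of_le hw.2 (min_le_right _ _)
  obtain ⟨x', hx', hx'F⟩ := intermediate_value_Icc' hy1.1.le h.contF.continuousOn
    (show w ∈ Icc (y1 + f y1) (a + f a) from ⟨by rw [hFy1]; exact hw.1.le, by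
      rw [hfa]; linarith⟩)
  simp only at hx'F
  have h5 := h.eq x'
  rw [hx'F, hfw] at h5
  have h6 := h.Ksym h5.symm
  have h7 : -f x' = x' - w := by linarith
  rw [h7] at h6
  have h8 : x' - w < a := by
    by_contra hcon
    push Not at hcon
    have := hy1F (x' - w) ⟨hcon, by linarith [hx'.2, hw.1]⟩
    linarith
  have h9 := hcont x' (by rw [Real.dist_eq, abs_lt]; constructor <;> linarith [hx'.1])
  rw [Real.dist_eq, hx'F, hfa, abs_lt] at h9
  linarith [h9.1]

/-- A positive germ at `0+` gives a positive function on `(0, ∞)`. -/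
lemma pos_of_germ (hg : ∃ δ > 0, ∀ x ∈ Ioo (0 : ℝ) δ, 0 < f x) : ∀ x, 0 < x → 0 < f x := by
  by_contra hcon
  push Not at hcon
  obtain ⟨x1, hx1, hfx1⟩ := hcon
  obtain ⟨δ, hδ, hg⟩ := hg
  have hδx : δ ≤ x1 := by
    by_contra hc
    push Not at hc
    linarith [hg x1 ⟨hx1, hc⟩]
  obtain ⟨b, hb, hfb, hbf⟩ := first_above h.cont (show δ / 2 ≤ x1 by linarith)
    (hg (δ / 2) ⟨by linarith, by linarith⟩) hfx1
  have hb0 : 0 < b := by linarith [hb.1]
  have hpos : ∀ x ∈ Ioo 0 b, 0 < f x := by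
    intro x hx
    rcases lt_or_ge x (δ / 2) with h4 | h4
    · exact hg x ⟨hx.1, by linarith⟩
    · exact hbf x ⟨h4, hx.2⟩
  by_cases hF : ∃ x ∈ Ioo 0 b, b ≤ x + f x
  · obtain ⟨x, hx, hxF⟩ := hF
    obtain ⟨x', hx', hx'F⟩ := intermediate_value_Icc hx.1.le h.contF.continuousOn
      (show b ∈ Icc (0 + f 0) (x + f x) from ⟨by rw [h.zero]; linarith, hxF⟩)
    simp only at hx'F
    have hxb : x' < b := lt_of_le_of_lt hx'.2 hx.2
    have hx'0 : 0 < x' := by
      rcases eq_or_lt_of_le hx'.1 with h0 | h0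
      · rw [← h0, h.zero] at hx'F
        linarith
      · exact h0
    have h5 := h.eq x'
    rw [hx'F, hfb] at h5
    have h6 := hpos (f x') ⟨by linarith, by linarith⟩
    linarith
  · push Not at hF
    have hm : 0 < f (b / 2) := hpos _ ⟨by linarith, by linarith⟩
    set v := min (f (b / 2)) (b / 2) with hv
    have hv0 : 0 < v := lt_min hm (by linarith)
    have hvb : v < b := lt_of_le_of_lt (min_le_right _ _) (by linarith)
    obtain ⟨c, hc, hfc, hcz⟩ := last_below h.cont (show b / 2 ≤ b by linarith)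
      (min_le_left (f (b / 2)) (b / 2)) (by rw [hfb]; exact hv0)
    have hcab : c ∈ Ioo 0 b := ⟨by linarith [hc.1], hc.2⟩
    have h6 := hcz (c + f c) ⟨by rw [hfc]; linarith, (hF c hcab).le⟩
    rw [h.eq, hfc] at h6
    have h7 := hpos v ⟨hv0, hvb⟩
    linarith

/-- Positive on the right half-line implies linear on the right half-line. -/
lemma lin_of_pos (hp : ∀ x, 0 < x → 0 < f x) : ∃ a > 0, ∀ x, 0 ≤ x → f x = a * x := by
  set ft : ℝ → ℝ := fun x => f (max x 0) - f (max (-x) 0) with hft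
  have hft1 : ∀ x, 0 ≤ x → ft x = f x := by
    intro x hx
    simp only [hft]
    rw [max_eq_left hx, max_eq_right (by linarith), h.zero, sub_zero]
  have hft2 : ∀ x, x ≤ 0 → ft x = -f (-x) := by
    intro x hx
    simp only [hft]
    rw [max_eq_right hx, max_eq_left (by linarith), h.zero, zero_sub]
  have hftc : Continuous ft := by
    apply Continuous.sub
    · exact h.cont.comp (continuous_id.max continuous_const)
    · exact h.cont.comp (continuous_neg.max continuous_const)
  have hE : Exp (fun x => -(x + ft x)) ft := by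
    refine ⟨(continuous_id.add hftc).neg, hftc, ?_, ?_, ?_, ?_, ?_⟩
    · intro x
      rcases lt_trichotomy x 0 with hx | hx | hx
      · have h1 := hp (-x) (by linarith)
        have h2 := h.eq (-x)
        have e1 : -(x + ft x) = -x + f (-x) := by rw [hft2 x hx.le]; ring
        rw [e1, hft1 (-x + f (-x)) (by linarith), h2, hft2 x hx.le, hft2 (-f (-x)) (by linarith)]
        ring_nf
      · subst hx
        have e0 : ft 0 = 0 := by rw [hft1 0 le_rfl, h.zero]
        simp [e0]
      · have h1 := hp x hx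
        have h2 := h.eq x
        rw [hft1 x hx.le, hft2 (-(x + f x)) (by linarith), neg_neg, h2, hft1 (f x) h1.le]
    · intro x
      rcases lt_trichotomy x 0 with hx | hx | hx
      · have h1 := hp (-x) (by linarith)
        rw [hft2 x hx.le, abs_of_pos (by linarith : 0 < -(x + -f (-x))), abs_of_neg hx,
          abs_of_neg (by linarith : -f (-x) < 0)]
        ring
      · subst hx
        have e0 : ft 0 = 0 := by rw [hft1 0 le_rfl, h.zero]
        simp [e0]
      · have h1 := hp x hx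
        rw [hft1 x hx.le, abs_of_neg (by linarith : -(x + f x) < 0), abs_of_pos hx,
          abs_of_pos h1]
        ring
    · intro x hx0
      rcases lt_or_gt_of_ne hx0 with hx | hx
      · have h1 := hp (-x) (by linarith)
        rw [hft2 x hx.le]
        exact mul_neg_of_neg_of_pos hx (by linarith)
      · have h1 := hp x hx
        rw [hft1 x hx.le]
        exact mul_neg_of_pos_of_neg hx (by linarith)
    · rw [hft1 0 le_rfl, h.zero]
    · intro x hx0
      rcases lt_or_gt_of_ne hx0 with hx | hx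
      · have h1 := hp (-x) (by linarith)
        rw [hft2 x hx.le]
        linarith
      · have h1 := hp x hx
        rw [hft1 x hx.le]
        exact h1.ne'
  obtain ⟨α, hα, hlin⟩ := hE.linear
  refine ⟨α, hα, ?_⟩
  intro x hx
  rcases eq_or_lt_of_le hx with h0 | h0
  · rw [← h0, h.zero]; simp
  · have h1 := hlin x
    rw [hft1 x hx, abs_of_pos h0, abs_of_pos (hp x h0)] at h1
    exact h1

/-- A zero germ at `0+` gives the zero function on `[0, ∞)`. -/
lemma zero_of_germ (hg : ∃ δ > 0, ∀ x ∈ Ioo (0 : ℝ) δ, f x = 0) : ∀ x, 0 ≤ x → f x = 0 := by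
  by_contra hcon
  push Not at hcon
  obtain ⟨x1, hx1, hfx1⟩ := hcon
  obtain ⟨δ, hδ, hg⟩ := hg
  have hx1' : 0 < x1 := by
    rcases eq_or_lt_of_le hx1 with h0 | h0
    · rw [← h0] at hfx1; exact absurd h.zero hfx1
    · exact h0
  set S : Set ℝ := {x | 0 < x ∧ f x ≠ 0} with hS
  have hSn : S.Nonempty := ⟨x1, hx1', hfx1⟩
  have hSb : ∀ x ∈ S, δ ≤ x := by
    intro x hx
    by_contra hc
    push Not at hc
    exact hx.2 (hg x ⟨hx.1, hc⟩)
  have hSbdd : BddBelow S := ⟨δ, hSb⟩
  set c := sInf S with hc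
  have hδc : δ ≤ c := le_csInf hSn hSb
  have hc0 : 0 < c := by linarith
  have hz1 : ∀ x, 0 < x → x < c → f x = 0 := by
    intro x hx0 hxc
    by_contra hne
    have := csInf_le hSbdd (show x ∈ S from ⟨hx0, hne⟩)
    linarith
  have hzc : f c = 0 := by
    by_contra hne
    obtain ⟨ρ, hρ, hcont⟩ := Metric.continuous_iff.mp h.cont c (|f c|) (abs_pos.mpr hne)
    set x := max (c / 2) (c - ρ / 2) with hx
    have hx1 : x < c := max_lt (by linarith) (by linarith)
    have hx2 : 0 < x := lt_of_lt_of_le (by linarith) (le_max_left _ _)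
    have hx3 : c - ρ / 2 ≤ x := le_max_right _ _
    have h4 := hcont x (by rw [Real.dist_eq, abs_lt]; constructor <;> linarith)
    rw [hz1 x hx2 hx1, Real.dist_eq, zero_sub, abs_neg] at h4
    exact lt_irrefl _ h4
  have hz : ∀ x, 0 ≤ x → x ≤ c → f x = 0 := by
    intro x hx0 hxc
    rcases eq_or_lt_of_le hx0 with h0 | h0
    · rw [← h0]; exact h.zero
    rcases eq_or_lt_of_le hxc with h1 | h1
    · rw [h1]; exact hzc
    · exact hz1 x h0 h1
  have happ : ∀ ε > 0, ∃ x, c < x ∧ x < c + ε ∧ f x ≠ 0 := by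
    intro ε hε
    obtain ⟨x, hxS, hxlt⟩ := exists_lt_of_csInf_lt hSn (show sInf S < c + ε by linarith)
    refine ⟨x, ?_, hxlt, hxS.2⟩
    apply lt_of_le_of_ne (csInf_le hSbdd hxS)
    intro h0
    apply hxS.2
    have : c = x := h0
    rw [← this]; exact hzc
  -- no positive values on the left near `0`
  have case1 : ¬ ∃ δ > 0, ∀ x ∈ Ioo (0 : ℝ) δ, -f (-x) < 0 := by
    rintro ⟨δ', hδ', hg'⟩
    obtain ⟨ρ, hρ, hcont⟩ := Metric.continuous_iff.mp h.cont 0 c hc0
    set u := min δ' ρ / 2 with hu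
    have hm : 0 < min δ' ρ := lt_min hδ' hρ
    have hu0 : 0 < u := by linarith
    have hu1 : u < δ' := by have := min_le_left δ' ρ; linarith
    have hu2 : u < ρ := by have := min_le_right δ' ρ; linarith
    have h4 := hcont (-u) (by rw [Real.dist_eq, sub_zero, abs_neg, abs_of_pos hu0]; exact hu2)
    rw [Real.dist_eq, h.zero, sub_zero] at h4
    have h5 := hg' u ⟨hu0, hu1⟩
    set z := f (-u) with hzdef
    have hz0 : 0 < z := by linarith
    have hzc' : z < c := by rwa [abs_of_pos hz0] at h4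
    have hfz : f z = 0 := hz z hz0.le hzc'.le
    set n := ⌈u / z⌉₊ with hn
    have h6 : u / z ≤ n := Nat.le_ceil _
    have h7 : (n : ℝ) < u / z + 1 := Nat.ceil_lt_add_one (by positivity)
    rw [div_le_iff₀ hz0] at h6
    have h7' : (n : ℝ) * z < u + z := by
      have : (n : ℝ) * z < (u / z + 1) * z := mul_lt_mul_of_pos_right h7 hz0
      have e : (u / z + 1) * z = u + z := by field_simp
      linarith
    have h8 := h.prog (x := -u) (y := z) rfl hfz n
    rw [hz (-u + n * z) (by linarith) (by linarith)] at h8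
    linarith
  -- no positive values to the right of `c`
  have hnp : ∃ ε > 0, ∀ x, c < x → x < c + ε → f x ≤ 0 := by
    by_contra hcon
    push Not at hcon
    have hall := dense_prog h.cont (c := c) (by
      intro ε hε
      obtain ⟨ρ, hρ, hcont⟩ := Metric.continuous_iff.mp h.cont c (min ε c) (lt_min hε hc0)
      obtain ⟨x, hx1, hx2, hx3⟩ := hcon (min ε ρ) (lt_min hε hρ)
      have h4 := hcont x (by
        rw [Real.dist_eq, abs_lt]
        have := min_le_right ε ρ
        constructor <;> linarith)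
      rw [Real.dist_eq, hzc, sub_zero, abs_of_pos hx3] at h4
      have h5 : f x < ε := lt_of_lt_of_le h4 (min_le_left _ _)
      have h6 : f x < c := lt_of_lt_of_le h4 (min_le_right _ _)
      refine ⟨x, f x, hx1, lt_of_lt_of_le hx2 (by gcongr; exact min_le_left _ _), hx3, h5, ?_⟩
      intro n
      rw [h.prog rfl (hz _ hx3.le h6.le) n, abs_of_pos hx3]
      exact h5.le)
    obtain ⟨x, hx1, hx2, hx3⟩ := happ 1 one_pos
    exact hx3 (hall x hx1)
  obtain ⟨ε0, hε0, hnp⟩ := hnp
  rcases h.reflect.germ with hgr | hgr | hgr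
  · -- `f < 0` on the left
    have hneg : ∀ v, v < 0 → f v < 0 := by
      intro v hv
      have := h.reflect.pos_of_germ hgr (-v) (by linarith)
      simp only [neg_neg] at this
      linarith
    obtain ⟨ρ, hρ, hcont⟩ := Metric.continuous_iff.mp h.cont c c hc0
    obtain ⟨x, hx1, hx2, hx3⟩ := happ (min ε0 ρ) (lt_min hε0 hρ)
    have hxε : x < c + ε0 := by have := min_le_left ε0 ρ; linarith
    have hxρ : x < c + ρ := by have := min_le_right ε0 ρ; linarith
    have hy : f x < 0 := lt_of_le_of_ne (hnp x hx1 hxε) hx3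
    set F : ℝ → ℝ := fun t => t + f t with hF
    have hcomm : ∀ n, f (F^[n] x) = F^[n] (f x) := by
      have : Function.Commute f F := fun t => h.eq t
      intro n
      exact (this.iterate_right n) x
    have hFneg : ∀ n v, v < 0 → F^[n] v < 0 ∧ F^[n] v ≤ v := by
      intro n
      induction n with
      | zero => intro v hv; exact ⟨hv, le_rfl⟩
      | succ n ih =>
        intro v hv
        rw [iterate_succ_apply']
        obtain ⟨h4, h5⟩ := ih v hv
        have h6 := hneg _ h4
        simp only [hF]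
        simp only [hF] at h4 h5 h6
        constructor <;> linarith
    have hstep : ∀ n, F^[n + 1] x = F^[n] x + F^[n] (f x) := by
      intro n
      rw [iterate_succ_apply', ← hcomm]
    have hdec : ∀ n : ℕ, F^[n] x ≤ x + n * f x := by
      intro n
      induction n with
      | zero => simp
      | succ n ih =>
        rw [hstep]
        have := (hFneg n (f x) hy).2
        push_cast
        linarith
    have hex : ∃ n : ℕ, F^[n] x ≤ c := by
      obtain ⟨n, hn⟩ := exists_nat_gt ((x - c) / (-f x))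
      rw [div_lt_iff₀ (by linarith)] at hn
      exact ⟨n, by have := hdec n; nlinarith⟩
    classical
    set n := Nat.find hex with hn
    have hn1 : F^[n] x ≤ c := Nat.find_spec hex
    rcases Nat.eq_zero_or_pos n with h0 | h0
    · rw [h0] at hn1
      simp at hn1
      linarith
    · obtain ⟨m, hm⟩ : ∃ m, n = m + 1 := ⟨n - 1, by omega⟩
      have hm1 : ¬ F^[m] x ≤ c := Nat.find_min hex (by omega)
      push Not at hm1
      have hm2 : F^[m] x ≤ x := by
        have h4 := hdec m
        have h5 : (m : ℝ) * f x ≤ 0 := mul_nonpos_of_nonneg_of_nonpos (Nat.cast_nonneg m) hy.le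
        linarith
      have h4 := hcont (F^[m] x) (by rw [Real.dist_eq, abs_lt]; constructor <;> linarith)
      rw [Real.dist_eq, hzc, sub_zero, hcomm, abs_lt] at h4
      have h5 := hstep m
      rw [← hm] at h5
      have h6 : 0 ≤ F^[n] x := by rw [h5]; linarith [h4.1]
      have h7 := hz _ h6 hn1
      rw [hcomm] at h7
      have h8 := (hFneg n (f x) hy).1
      linarith
  · exact case1 hgr
  · obtain ⟨δ', hδ', hgr⟩ := hgr
    obtain ⟨ρ, hρ, hcont⟩ := Metric.continuous_iff.mp h.cont c (min c δ') (lt_min hc0 hδ')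
    obtain ⟨x, hx1, hx2, hx3⟩ := happ (min ε0 ρ) (lt_min hε0 hρ)
    have hxε : x < c + ε0 := by have := min_le_left ε0 ρ; linarith
    have hxρ : x < c + ρ := by have := min_le_right ε0 ρ; linarith
    have hy : f x < 0 := lt_of_le_of_ne (hnp x hx1 hxε) hx3
    have h4 := hcont x (by rw [Real.dist_eq, abs_lt]; constructor <;> linarith)
    rw [Real.dist_eq, hzc, sub_zero, abs_of_neg hy] at h4
    have h5 : -f x < c := lt_of_lt_of_le h4 (min_le_left _ _)
    have h6 : -f x < δ' := lt_of_lt_of_le h4 (min_le_right _ _)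
    have h7 : f (f x) = 0 := by
      have := hgr (-f x) ⟨by linarith, h6⟩
      simp only [neg_neg] at this
      linarith
    have hy' : 0 < -f x := by linarith
    set n := ⌊x / (-f x)⌋₊ with hn
    have h8 : (n : ℝ) ≤ x / (-f x) := Nat.floor_le (by apply div_nonneg <;> linarith)
    have h9 : x / (-f x) < n + 1 := Nat.lt_floor_add_one _
    rw [le_div_iff₀ hy'] at h8
    rw [div_lt_iff₀ hy'] at h9
    have h10 := h.prog (x := x) (y := f x) rfl h7 n
    rw [hz (x + n * f x) (by linarith) (by linarith)] at h10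
    linarith

end Sol

end Pool.Agent.K4H45.FE
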