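import Mathlib
import Pool.Agent.K4H45.FE.Signs

set_option autoImplicit false

/-!
# The continuous solutions of `f (x + f x) = f x + f (f x)`
-/

namespace Pool.Agent.K4H45.FE

open Set Function

/-- No infinite descent in a closed set of pairs at distance `d`. -/
lemma no_descent {S : Set ℝ} (hS : IsClosed S) (hne : S.Nonempty) (d : ℝ) (τ : ℝ → ℝ)
    (hτ : ∀ u ∈ S, τ u ∈ S ∧ |τ u| + |τ u + d| < |u| + |u + d|) : False := by
  obtain ⟨u0, hu0⟩ := hne
  set M := |u0| + |u0 + d| with hM
  have hc : IsCompact (Icc (-M) M ∩ S) := isCompact_Icc.inter_right hS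
  have hM0 : |u0| ≤ M := by have := abs_nonneg (u0 + d); linarith
  have hn : (Icc (-M) M ∩ S).Nonempty := ⟨u0, abs_le.mp hM0, hu0⟩
  have hcont : ContinuousOn (fun u : ℝ => |u| + |u + d|) (Icc (-M) M ∩ S) :=
    (continuous_abs.add (continuous_id.add continuous_const).abs).continuousOn
  obtain ⟨u1, hu1, hmin⟩ := hc.exists_isMinOn hn hcont
  obtain ⟨h1, h2⟩ := hτ u1 hu1.2
  have h3 : |u1| + |u1 + d| ≤ M := hmin ⟨abs_le.mp hM0, hu0⟩
  have h4 : |τ u1| ≤ M := by have := abs_nonneg (τ u1 + d); linarith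
  have h5 : |u1| + |u1 + d| ≤ |τ u1| + |τ u1 + d| := hmin ⟨abs_le.mp h4, h1⟩
  linarith

namespace Sol

variable {f : ℝ → ℝ} (h : Sol f)
include h

/-- A negative germ at `0+` forces positive values just to the left of `0`. -/
lemma left_pos (hg : ∃ δ > 0, ∀ x ∈ Ioo (0 : ℝ) δ, f x < 0) :
    ∃ δ > 0, ∀ x ∈ Ioo (0 : ℝ) δ, 0 < f (-x) := by
  obtain ⟨δ, hδ, hg⟩ := hg
  rcases h.reflect.germ with hr | hr | hr
  · exfalso
    obtain ⟨b, hb, hlin⟩ := h.reflect.lin_of_pos (h.reflect.pos_of_germ hr)
    have hlin' : ∀ v, v ≤ 0 → f v = b * v := by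
      intro v hv
      have := hlin (-v) (by linarith)
      simp only [neg_neg] at this
      linarith
    set x := δ / 2 with hx
    have hx0 : 0 < x := by linarith
    have hy : f x < 0 := hg x ⟨by linarith, by linarith⟩
    set F : ℝ → ℝ := fun t => t + f t with hF
    have hcomm : ∀ n, f (F^[n] x) = F^[n] (f x) := by
      have : Function.Commute f F := fun t => h.eq t
      intro n
      exact (this.iterate_right n) x
    have hFn : ∀ n : ℕ, F^[n] (f x) = (1 + b) ^ n * f x := by
      intro n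
      induction n with
      | zero => simp
      | succ n ih =>
        rw [iterate_succ_apply', ih]
        have h1 : (1 + b) ^ n * f x ≤ 0 :=
          mul_nonpos_of_nonneg_of_nonpos (by positivity) hy.le
        simp only [hF]
        rw [hlin' _ h1]
        ring
    have hinv : ∀ n : ℕ, b * F^[n] x - (1 + b) ^ n * f x = b * x - f x := by
      intro n
      induction n with
      | zero => simp
      | succ n ih =>
        have h1 : F^[n + 1] x = F^[n] x + (1 + b) ^ n * f x := by
          rw [iterate_succ_apply', ← hFn, ← hcomm]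
        rw [h1, ← ih]
        ring
    have hdec : ∀ n : ℕ, F^[n] x ≤ x + n * f x := by
      intro n
      induction n with
      | zero => simp
      | succ n ih =>
        have h1 : F^[n + 1] x = F^[n] x + (1 + b) ^ n * f x := by
          rw [iterate_succ_apply', ← hFn, ← hcomm]
        have h2 : (1 : ℝ) ≤ (1 + b) ^ n := one_le_pow₀ (by linarith)
        rw [h1]
        push_cast
        nlinarith
    obtain ⟨n, hn⟩ := exists_nat_gt (x / (-f x))
    rw [div_lt_iff₀ (by linarith)] at hn
    have h1 : F^[n] x < 0 := by have := hdec n; linarith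
    have h2 := hlin' _ h1.le
    rw [hcomm, hFn] at h2
    have h3 := hinv n
    have h4 : 0 < b * x := by positivity
    linarith
  · obtain ⟨δ', hδ', hr⟩ := hr
    exact ⟨δ', hδ', fun x hx => by have := hr x hx; linarith⟩
  · exfalso
    have hz := h.reflect.zero_of_germ hr
    have hz' : ∀ v, v ≤ 0 → f v = 0 := by
      intro v hv
      have := hz (-v) (by linarith)
      simp only [neg_neg] at this
      linarith
    set x := δ / 2 with hx
    have hy : f x < 0 := hg x ⟨by linarith, by linarith⟩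
    obtain ⟨n, hn⟩ := exists_nat_gt (x / (-f x))
    rw [div_lt_iff₀ (by linarith)] at hn
    have h1 := h.prog (x := x) (y := f x) rfl (hz' _ hy.le) n
    rw [hz' _ (by linarith)] at h1
    linarith

lemma no_zero (hg : ∃ δ > 0, ∀ x ∈ Ioo (0 : ℝ) δ, f x < 0) : ∀ x, 0 < x → f x < 0 := by
  obtain ⟨δ', hδ', hl⟩ := h.left_pos hg
  by_contra hcon
  push Not at hcon
  obtain ⟨x1, hx1, hfx1⟩ := hcon
  obtain ⟨δ, hδ, hg⟩ := hg
  have hδx : δ ≤ x1 := by
    by_contra hc
    push Not at hc
    linarith [hg x1 ⟨hx1, hc⟩]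
  obtain ⟨c, hc, hfc, hcf⟩ := first_below h.cont (show δ / 2 ≤ x1 by linarith)
    (hg (δ / 2) ⟨by linarith, by linarith⟩) hfx1
  have hc0 : 0 < c := by linarith [hc.1]
  have hneg : ∀ x ∈ Ioo 0 c, f x < 0 := by
    intro x hx
    rcases lt_or_ge x (δ / 2) with h4 | h4
    · exact hg x ⟨hx.1, by linarith⟩
    · exact hcf x ⟨h4, hx.2⟩
  have hm : f (c / 2) < 0 := hneg _ ⟨by linarith, by linarith⟩
  set v := max (f (c / 2)) (-δ' / 2) with hv
  have hv0 : v < 0 := max_lt hm (by linarith)
  have hvδ : -δ' / 2 ≤ v := le_max_right _ _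
  obtain ⟨xv, hxv, hfxv, hxvf⟩ := last_above h.cont (show c / 2 ≤ c by linarith)
    (le_max_left (f (c / 2)) (-δ' / 2)) (by rw [hfc]; exact hv0)
  obtain ⟨x', hx', hx'F⟩ := intermediate_value_Icc hxv.2.le h.contF.continuousOn
    (show xv ∈ Icc (xv + f xv) (c + f c) from ⟨by rw [hfxv]; linarith, by
      rw [hfc]; linarith [hxv.2]⟩)
  simp only at hx'F
  have hx'1 : x' ≠ xv := by
    rintro rfl
    rw [hfxv] at hx'F
    linarith
  have hx'2 : x' ≠ c := by
    rintro rfl
    rw [hfc] at hx'F
    linarith [hxv.2]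
  have hx'3 : xv < x' := lt_of_le_of_ne hx'.1 hx'1.symm
  have hx'4 : x' < c := lt_of_le_of_ne hx'.2 hx'2
  have h1 := hxvf x' ⟨hx'3, hx'4.le⟩
  have h2 := hneg x' ⟨by linarith [hxv.1], hx'4⟩
  have h3 := h.eq x'
  rw [hx'F, hfxv] at h3
  have h4 := hl (-f x') ⟨by linarith, by linarith⟩
  rw [neg_neg] at h4
  linarith

/-- A negative germ at `0+` forces `x * f x < 0` for all `x ≠ 0`. -/
lemma neg_case (hg : ∃ δ > 0, ∀ x ∈ Ioo (0 : ℝ) δ, f x < 0) : ∀ x, x ≠ 0 → x * f x < 0 := by
  have h1 := h.no_zero hg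
  obtain ⟨δ', hδ', hl⟩ := h.left_pos hg
  have h2 := h.reflect.no_zero ⟨δ', hδ', fun x hx => by have := hl x hx; linarith⟩
  intro x hx
  rcases lt_or_gt_of_ne hx with h3 | h3
  · have := h2 (-x) (by linarith)
    simp only [neg_neg] at this
    exact mul_neg_of_neg_of_pos h3 (by linarith)
  · exact mul_neg_of_pos_of_neg h3 (h1 x h3)

lemma reflect_signs (hs : ∀ x, x ≠ 0 → x * f x < 0) : ∀ x, x ≠ 0 → x * (-f (-x)) < 0 := by
  intro x hx
  have := hs (-x) (neg_ne_zero.mpr hx)
  linarith

lemma fne (hs : ∀ x, x ≠ 0 → x * f x < 0) {x : ℝ} (hx : x ≠ 0) : f x ≠ 0 := by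
  intro h0
  have := hs x hx
  rw [h0] at this
  simp at this

lemma comp1 (hs : ∀ x, x ≠ 0 → x * f x < 0) {p q : ℝ} (hpq : p < q)
    (Fp : p + f p = 0) (Fq : q + f q = 0) (hne : ∀ x ∈ Ioo p q, x + f x ≠ 0) :
    ∀ x ∈ Ioo p q, f x ∈ Ioo (-q) (-p) := by
  have hst : ∀ x ∈ Ioo p q, f x + f (f x) ≠ 0 := by
    intro x hx
    rw [← h.eq]
    exact h.fne hs (hne x hx)
  intro x hx
  constructor
  · by_contra hcon
    push Not at hcon
    obtain ⟨x', hx', hfx'⟩ := intermediate_value_Icc' hx.1.le h.cont.continuousOn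
      (show -q ∈ Icc (f x) (f p) from ⟨hcon, by linarith⟩)
    have hx'p : x' ≠ p := by
      rintro rfl
      linarith
    have h1 := hst x' ⟨lt_of_le_of_ne hx'.1 hx'p.symm, lt_of_le_of_lt hx'.2 hx.2⟩
    rw [hfx'] at h1
    exact h1 (h.Ksym Fq)
  · by_contra hcon
    push Not at hcon
    obtain ⟨x', hx', hfx'⟩ := intermediate_value_Icc' hx.2.le h.cont.continuousOn
      (show -p ∈ Icc (f q) (f x) from ⟨by linarith, hcon⟩)
    have hx'q : x' ≠ q := by
      rintro rfl
      linarith
    have h1 := hst x' ⟨lt_of_lt_of_le hx.1 hx'.1, lt_of_le_of_ne hx'.2 hx'q⟩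
    rw [hfx'] at h1
    exact h1 (h.Ksym Fp)

lemma comp_ne {p q : ℝ} (hne : ∀ x ∈ Ioo p q, x + f x ≠ 0) :
    ∀ v ∈ Ioo (-q) (-p), v + f v ≠ 0 := by
  intro v hv h0
  exact hne (-v) ⟨by linarith [hv.2], by linarith [hv.1]⟩ (h.Ksym h0)

lemma comp2 (hs : ∀ x, x ≠ 0 → x * f x < 0) {p q : ℝ} (hpq : p < q)
    (Fp : p + f p = 0) (Fq : q + f q = 0) (hne : ∀ x ∈ Ioo p q, x + f x ≠ 0) :
    ∀ v ∈ Ioo (-q) (-p), f v ∈ Ioo p q := by
  intro v hv
  have h1 := h.reflect.comp1 (h.reflect_signs hs) hpq
    (by have := h.Ksym Fp; linarith) (by have := h.Ksym Fq; linarith)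
    (by
      intro x hx h0
      exact h.comp_ne hne (-x) ⟨by linarith [hx.2], by linarith [hx.1]⟩ (by linarith))
    (-v) ⟨by linarith [hv.2], by linarith [hv.1]⟩
  simp only [neg_neg] at h1
  exact ⟨by linarith [h1.2], by linarith [h1.1]⟩

/-- On a component of `{F ≠ 0}` with `F > 0`. -/
lemma compPos (hs : ∀ x, x ≠ 0 → x * f x < 0) {p q : ℝ} (hpq : p < q)
    (Fp : p + f p = 0) (Fq : q + f q = 0) (hpos : ∀ x ∈ Ioo p q, 0 < x + f x) :
    ∀ x ∈ Ioo p q, f (f x) < x ∧ f (f x) ∈ Ioo p q := by
  have hne : ∀ x ∈ Ioo p q, x + f x ≠ 0 := fun x hx => (hpos x hx).ne'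
  have hF : ∀ w ∈ Ioo (-q) (-p), w + f w < 0 := by
    have hm : (p + q) / 2 ∈ Ioo p q := ⟨by linarith, by linarith⟩
    have h1 := h.comp1 hs hpq Fp Fq hne _ hm
    have h2 := hpos _ hm
    have h3 := hs _ h2.ne'
    rw [h.eq] at h3
    exact neg_on h.contF ordConnected_Ioo (h.comp_ne hne) h1 (by
      by_contra hc
      push Not at hc
      nlinarith)
  intro x hx
  have h1 := h.comp1 hs hpq Fp Fq hne x hx
  have h2 := h.comp2 hs hpq Fp Fq hne _ h1
  have h3 := hF _ h1
  have h4 := hpos x hx
  exact ⟨by linarith, h2⟩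

lemma compNeg (hs : ∀ x, x ≠ 0 → x * f x < 0) {p q : ℝ} (hpq : p < q)
    (Fp : p + f p = 0) (Fq : q + f q = 0) (hneg : ∀ x ∈ Ioo p q, x + f x < 0) :
    (∀ x ∈ Ioo p q, x < f (f x) ∧ f (f x) ∈ Ioo p q) ∧ ∀ v ∈ Ioo (-q) (-p), f (f v) < v := by
  have hne : ∀ x ∈ Ioo p q, x + f x ≠ 0 := fun x hx => (hneg x hx).ne
  have hF : ∀ w ∈ Ioo (-q) (-p), 0 < w + f w := by
    have hm : (p + q) / 2 ∈ Ioo p q := ⟨by linarith, by linarith⟩
    have h1 := h.comp1 hs hpq Fp Fq hne _ hm
    have h2 := hneg _ hm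
    have h3 := hs _ h2.ne
    rw [h.eq] at h3
    exact pos_on h.contF ordConnected_Ioo (h.comp_ne hne) h1 (by
      by_contra hc
      push Not at hc
      nlinarith)
  constructor
  · intro x hx
    have h1 := h.comp1 hs hpq Fp Fq hne x hx
    have h2 := h.comp2 hs hpq Fp Fq hne _ h1
    have h3 := hF _ h1
    have h4 := hneg x hx
    exact ⟨by linarith, h2⟩
  · intro v hv
    have h1 := h.comp2 hs hpq Fp Fq hne v hv
    have h2 := hF v hv
    have h3 := hneg _ h1
    linarith

lemma starPos (hs : ∀ x, x ≠ 0 → x * f x < 0) {q : ℝ} (hq : 0 < q) (Fq : q + f q = 0)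
    (hpos : ∀ x ∈ Ioo 0 q, 0 < x + f x) : False := by
  have F0 : (0 : ℝ) + f 0 = 0 := by rw [h.zero, add_zero]
  have hφ := h.compPos hs hq F0 Fq hpos
  have hm : q / 2 ∈ Ioo 0 q := ⟨by linarith, by linarith⟩
  obtain ⟨c, hc, hFc, hcF⟩ := last_below h.contF (show q / 2 ≤ q by linarith)
    (le_refl ((fun x => x + f x) (q / 2))) (by
      simp only
      rw [Fq]; exact hpos _ hm)
  simp only at hFc hcF
  have hc0 : c ∈ Ioo 0 q := ⟨by linarith [hc.1], hc.2⟩
  have hfq : f (f q) = q := by
    have h1 : f q = -q := by linarith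
    rw [h1]
    have := h.Ksym Fq
    linarith
  obtain ⟨x', hx', hx'φ⟩ := intermediate_value_Icc hc.2.le
    (h.cont.comp h.cont).continuousOn
    (show c ∈ Icc ((f ∘ f) c) ((f ∘ f) q) from ⟨(hφ c hc0).1.le, by
      simp only [comp_apply]; rw [hfq]; exact hc.2.le⟩)
  simp only [comp_apply] at hx'φ
  have hx'1 : x' ≠ c := by
    rintro rfl
    have := (hφ x' hc0).1
    linarith
  have hx'2 : x' ≠ q := by
    rintro rfl
    rw [hfq] at hx'φ
    linarith [hc.2]
  have hx'3 : c < x' := lt_of_le_of_ne hx'.1 hx'1.symm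
  have hx'4 : x' < q := lt_of_le_of_ne hx'.2 hx'2
  have hx'0 : x' ∈ Ioo 0 q := ⟨by linarith [hc0.1], hx'4⟩
  have h1 := hcF x' ⟨hx'3, hx'4.le⟩
  have h2 := hpos x' hx'0
  have h3 := hs x' hx'0.1.ne'
  have h4 : f x' < 0 := by nlinarith [hx'0.1]
  have h5 : x' + f x' ∈ Ioo 0 q := ⟨h2, by linarith⟩
  have h6 := (hφ _ h5).1
  have h7 : f (f (x' + f x')) = c + f c := by
    rw [h.eq, h.eq (f x'), hx'φ]
  rw [h7, hFc] at h6
  linarith

lemma starNeg (hs : ∀ x, x ≠ 0 → x * f x < 0) {q : ℝ} (hq : 0 < q) (Fq : q + f q = 0)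
    (hneg : ∀ x ∈ Ioo 0 q, x + f x < 0) : False := by
  have F0 : (0 : ℝ) + f 0 = 0 := by rw [h.zero, add_zero]
  obtain ⟨hφ, hφ'⟩ := h.compNeg hs hq F0 Fq hneg
  have hm : q / 2 ∈ Ioo 0 q := ⟨by linarith, by linarith⟩
  have hm' := hneg _ hm
  set v := max (q / 2 + f (q / 2)) (-q / 2) with hv
  have hv0 : v < 0 := max_lt hm' (by linarith)
  have hvq : -q < v := lt_of_lt_of_le (by linarith) (le_max_right _ _)
  obtain ⟨c, hc, hFc, hcF⟩ := last_above h.contF (show q / 2 ≤ q by linarith)
    (v := v) (le_max_left _ _) (by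
      rw [Fq]; exact hv0)
  beta_reduce at hFc hcF
  have hc0 : c ∈ Ioo 0 q := ⟨by linarith [hc.1], hc.2⟩
  obtain ⟨h1, h2⟩ := hφ c hc0
  have h3 := hcF (f (f c)) ⟨h1, h2.2.le⟩
  have h4 := hφ' v ⟨hvq, by simpa using hv0⟩
  have h5 : f (f (c + f c)) = f (f c) + f (f (f c)) := by rw [h.eq, h.eq]
  rw [hFc] at h5
  linarith

/-- If `F` vanishes somewhere on `(0, ∞)` then its zeros accumulate at `0`. -/
lemma accum (hs : ∀ x, x ≠ 0 → x * f x < 0) {y : ℝ} (hy : 0 < y) (Fy : y + f y = 0) :
    ∀ ε > 0, ∃ z ∈ Ioo (0 : ℝ) ε, z + f z = 0 := by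
  by_contra hcon
  push Not at hcon
  obtain ⟨ε, hε, hne⟩ := hcon
  have hεy : ε ≤ y := by
    by_contra hc
    push Not at hc
    exact hne y ⟨hy, hc⟩ Fy
  have hm : ε / 2 ∈ Ioo 0 ε := ⟨by linarith, by linarith⟩
  rcases lt_or_gt_of_ne (hne _ hm) with h1 | h1
  · obtain ⟨q, hq, Fq, hqF⟩ := first_below h.contF (show ε / 2 ≤ y by linarith) h1 Fy.ge
    have hq0 : 0 < q := by linarith [hq.1]
    refine h.starNeg hs hq0 Fq ?_
    intro x hx
    rcases lt_or_ge x ε with h2 | h2
    · exact neg_on h.contF ordConnected_Ioo hne hm h1 x ⟨hx.1, h2⟩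
    · exact hqF x ⟨by linarith, hx.2⟩
  · obtain ⟨q, hq, Fq, hqF⟩ := first_above h.contF (show ε / 2 ≤ y by linarith) h1 Fy.le
    have hq0 : 0 < q := by linarith [hq.1]
    refine h.starPos hs hq0 Fq ?_
    intro x hx
    rcases lt_or_ge x ε with h2 | h2
    · exact pos_on h.contF ordConnected_Ioo hne hm h1 x ⟨hx.1, h2⟩
    · exact hqF x ⟨by linarith, hx.2⟩

lemma F_zero_between (hs : ∀ x, x ≠ 0 → x * f x < 0) {y : ℝ} (hy : 0 < y) (Fy : y + f y = 0) :
    ∀ x, 0 ≤ x → x ≤ y → x + f x = 0 := by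
  intro x0 hx0 hx0y
  by_contra hne
  have hac := h.accum hs hy Fy
  have hφfix : ∀ z, z + f z = 0 → f (f z) = z := by
    intro z hz
    have h1 : f z = -z := by linarith
    rw [h1]
    have := h.Ksym hz
    linarith
  have F0 : (0 : ℝ) + f 0 = 0 := by rw [h.zero, add_zero]
  rcases lt_or_gt_of_ne hne with h1 | h1
  · obtain ⟨p, hp, Fp, hpF⟩ := last_below h.contF hx0 F0.ge h1
    obtain ⟨q, hq, Fq, hqF⟩ := first_below h.contF hx0y h1 Fy.ge
    beta_reduce at Fp Fq hpF hqF
    have hneg : ∀ x ∈ Ioo p q, x + f x < 0 := by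
      intro x hx
      rcases le_or_gt x x0 with h4 | h4
      · exact hpF x ⟨hx.1, h4⟩
      · exact hqF x ⟨h4.le, hx.2⟩
    obtain ⟨hφ, -⟩ := h.compNeg hs (hp.2.trans hq.1) Fp Fq hneg
    obtain ⟨z, hz, Fz⟩ := hac (-(x0 + f x0)) (by linarith)
    obtain ⟨c, hc, hFc, hcF⟩ := last_above h.contF hq.1.le
      (show x0 + f x0 ≤ -z by linarith [hz.2]) (by rw [Fq]; linarith [hz.1])
    try beta_reduce at hFc hcF
    have hc0 : c ∈ Ioo p q := ⟨lt_of_lt_of_le hp.2 hc.1, hc.2⟩
    obtain ⟨h5, h6⟩ := hφ c hc0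
    have h7 := hcF (f (f c)) ⟨h5, h6.2.le⟩
    have h8 : f (f (c + f c)) = f (f c) + f (f (f c)) := by rw [h.eq, h.eq]
    rw [hFc, hφfix (-z) (h.Ksym Fz)] at h8
    linarith
  · obtain ⟨p, hp, Fp, hpF⟩ := last_above h.contF hx0 F0.le h1
    obtain ⟨q, hq, Fq, hqF⟩ := first_above h.contF hx0y h1 Fy.le
    beta_reduce at Fp Fq hpF hqF
    have hpos : ∀ x ∈ Ioo p q, 0 < x + f x := by
      intro x hx
      rcases le_or_gt x x0 with h4 | h4
      · exact hpF x ⟨hx.1, h4⟩
      · exact hqF x ⟨h4.le, hx.2⟩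
    have hφ := h.compPos hs (hp.2.trans hq.1) Fp Fq hpos
    obtain ⟨z, hz, Fz⟩ := hac (x0 + f x0) h1
    obtain ⟨c, hc, hFc, hcF⟩ := first_below h.contF hp.2.le
      (by rw [Fp]; exact hz.1) (show z ≤ x0 + f x0 from hz.2.le)
    try beta_reduce at hFc hcF
    have hc0 : c ∈ Ioo p q := ⟨hc.1, lt_of_le_of_lt hc.2 hq.1⟩
    obtain ⟨h5, h6⟩ := hφ c hc0
    have h7 := hcF (f (f c)) ⟨h6.1.le, h5⟩
    have h8 : f (f (c + f c)) = f (f c) + f (f (f c)) := by rw [h.eq, h.eq]
    rw [hFc, hφfix z Fz] at h8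
    linarith

/-- If `F` vanishes somewhere outside `0` then `f = -id`. -/
lemma K_all (hs : ∀ x, x ≠ 0 → x * f x < 0) {y : ℝ} (hy : 0 < y) (Fy : y + f y = 0) :
    ∀ x, f x = -x := by
  set S : Set ℝ := {z | 0 < z ∧ z + f z = 0} with hS
  have hall : ∀ x, 0 < x → x + f x = 0 := by
    by_contra hcon
    push Not at hcon
    obtain ⟨x1, hx1, hFx1⟩ := hcon
    have hSb : ∀ z ∈ S, z ≤ x1 := by
      intro z hz
      by_contra hc
      push Not at hc
      exact hFx1 (h.F_zero_between hs hz.1 hz.2 x1 hx1.le hc.le)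
    have hSn : S.Nonempty := ⟨y, hy, Fy⟩
    have hSbdd : BddAbove S := ⟨x1, hSb⟩
    set d := sSup S with hd
    have hyd : y ≤ d := le_csSup hSbdd ⟨hy, Fy⟩
    have hd0 : 0 < d := by linarith
    have hlt : ∀ x, 0 ≤ x → x < d → x + f x = 0 := by
      intro x hx hxd
      obtain ⟨z, hz, hxz⟩ := exists_lt_of_lt_csSup hSn hxd
      exact h.F_zero_between hs hz.1 hz.2 x hx hxz.le
    have Fd : d + f d = 0 := by
      by_contra hne
      obtain ⟨ρ, hρ, hcont⟩ := Metric.continuous_iff.mp h.contF d (|d + f d|) (abs_pos.mpr hne)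
      set x := max (d / 2) (d - ρ / 2) with hx
      have hx1 : x < d := max_lt (by linarith) (by linarith)
      have hx2 : 0 < x := lt_of_lt_of_le (by linarith) (le_max_left _ _)
      have hx3 : d - ρ / 2 ≤ x := le_max_right _ _
      have h4 := hcont x (by rw [Real.dist_eq, abs_lt]; constructor <;> linarith)
      rw [hlt x hx2.le hx1, Real.dist_eq, zero_sub, abs_neg] at h4
      exact lt_irrefl _ h4
    have hin : ∀ x, 0 ≤ x → x ≤ d → x + f x = 0 := by
      intro x hx0 hxd
      rcases eq_or_lt_of_le hxd with h0 | h0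
      · rw [h0]; exact Fd
      · exact hlt x hx0 h0
    have hin' : ∀ x, |x| ≤ d → f x = -x := by
      intro x hx
      rcases le_or_gt 0 x with h0 | h0
      · rw [abs_of_nonneg h0] at hx
        have := hin x h0 hx
        linarith
      · rw [abs_of_neg h0] at hx
        have := h.Ksym (hin (-x) (by linarith) hx)
        rw [neg_neg] at this
        linarith
    have hout : ∀ x, d < x → x + f x ≠ 0 := by
      intro x hx h0
      have := le_csSup hSbdd (show x ∈ S from ⟨by linarith, h0⟩)
      linarith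
    -- the step
    have step : ∀ x e, x + f x = e → |e| ≤ d → x - 2 * e + f (x - 2 * e) = e := by
      intro x e he hed
      have h1 := h.eq x
      rw [he, hin' e hed] at h1
      have h2 : f x = e - x := by linarith
      rw [h2] at h1
      have h3 : f (e - x) = x - 2 * e := by linarith
      have h4 := h.eq (e - x)
      rw [h3] at h4
      have h5 : e - x + (x - 2 * e) = -e := by ring
      rw [h5, hin' (-e) (by rw [abs_neg]; exact hed)] at h4
      linarith
    have steps : ∀ n : ℕ, ∀ x e, x + f x = e → |e| ≤ d →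
        x - n * (2 * e) + f (x - n * (2 * e)) = e := by
      intro n
      induction n with
      | zero => intro x e he _; simpa using he
      | succ n ih =>
        intro x e he hed
        have h1 := step _ e (ih x e he hed) hed
        have e1 : x - ((n + 1 : ℕ) : ℝ) * (2 * e) = x - n * (2 * e) - 2 * e := by push_cast; ring
        rw [e1]
        exact h1
    have hneg : ∀ x, d < x → |x + f x| ≤ d → x + f x < 0 := by
      intro x hx hxe
      by_contra hc
      push Not at hc
      have hpos : 0 < x + f x := lt_of_le_of_ne hc (hout x hx).symm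
      set e := x + f x with he
      rw [abs_of_pos hpos] at hxe
      have h2e : 0 < 2 * e := by linarith
      set n := ⌊(x + d) / (2 * e)⌋₊ with hn
      have h8 : (n : ℝ) ≤ (x + d) / (2 * e) := Nat.floor_le (by apply div_nonneg <;> linarith)
      have h9 : (x + d) / (2 * e) < n + 1 := Nat.lt_floor_add_one _
      rw [le_div_iff₀ h2e] at h8
      rw [div_lt_iff₀ h2e] at h9
      have h10 := steps n x e he.symm (by rw [abs_of_pos hpos]; exact hxe)
      have h11 : |x - n * (2 * e)| ≤ d := by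
        rw [abs_le]
        constructor <;> nlinarith
      rw [hin' _ h11] at h10
      linarith
    have hcl := dense_prog h.contF (c := d) (by
      intro ε hε
      obtain ⟨ρ, hρ, hcont⟩ := Metric.continuous_iff.mp h.contF d (min (ε / 2) d)
        (lt_min (by linarith) hd0)
      set x := d + min (ε / 2) (ρ / 2) with hx
      have hm0 : 0 < min (ε / 2) (ρ / 2) := lt_min (by linarith) (by linarith)
      have hm1 : min (ε / 2) (ρ / 2) ≤ ε / 2 := min_le_left _ _
      have hm2 : min (ε / 2) (ρ / 2) ≤ ρ / 2 := min_le_right _ _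
      have h4 := hcont x (by rw [Real.dist_eq, abs_lt]; constructor <;> linarith)
      rw [Fd, Real.dist_eq, sub_zero] at h4
      have h5 : |x + f x| < ε / 2 := lt_of_lt_of_le h4 (min_le_left _ _)
      have h6 : |x + f x| < d := lt_of_lt_of_le h4 (min_le_right _ _)
      have h7 := hneg x (by linarith) h6.le
      have h5' := h5
      rw [abs_of_neg h7] at h5'
      refine ⟨x, -(2 * (x + f x)), by linarith, by linarith, by linarith, by linarith, ?_⟩
      intro n
      have h8 := steps n x (x + f x) rfl h6.le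
      have e1 : x + n * -(2 * (x + f x)) = x - n * (2 * (x + f x)) := by ring
      rw [e1, h8]
      linarith)
    have hx1d : d < x1 := by
      by_contra hc
      push Not at hc
      exact hFx1 (hin x1 hx1.le hc)
    exact hFx1 (hcl x1 hx1d)
  intro x
  rcases lt_trichotomy x 0 with h0 | h0 | h0
  · have := h.Ksym (hall (-x) (by linarith))
    rw [neg_neg] at this
    linarith
  · rw [h0, h.zero, neg_zero]
  · have := hall x h0
    linarith

/-- In the negative case the solution is linear. -/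
theorem neg_linear (hs : ∀ x, x ≠ 0 → x * f x < 0) : ∃ a : ℝ, ∀ x, f x = a * x := by
  by_cases hK : ∃ y, y ≠ 0 ∧ y + f y = 0
  · obtain ⟨y, hy, Fy⟩ := hK
    refine ⟨-1, fun x => ?_⟩
    rw [neg_one_mul]
    rcases lt_or_gt_of_ne hy with h0 | h0
    · exact h.K_all hs (y := -y) (by linarith) (h.Ksym Fy) x
    · exact h.K_all hs h0 Fy x
  push Not at hK
  have hf0 := h.zero
  have hfp : ∀ x, 0 < x → f x < 0 := fun x hx => by
    have := hs x hx.ne'
    by_contra hc
    push Not at hc
    nlinarith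
  have hfn : ∀ x, x < 0 → 0 < f x := fun x hx => by
    have := hs x hx.ne
    by_contra hc
    push Not at hc
    nlinarith
  have hcommF : ∀ x, f x + f (f x) = f (x + f x) := fun x => (h.eq x).symm
  rcases lt_or_gt_of_ne (hK 1 one_ne_zero) with h1 | h1
  · -- `F` flips
    have hFp : ∀ x, 0 < x → x + f x < 0 := fun x hx =>
      neg_on h.contF ordConnected_Ioi (s := Ioi 0)
        (fun x (hx : 0 < x) => hK x hx.ne') (mem_Ioi.mpr one_pos : (1 : ℝ) ∈ Ioi 0) h1 x hx
    have hFn : ∀ x, x < 0 → 0 < x + f x := fun x hx =>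
      pos_on h.contF ordConnected_Iio (s := Iio 0)
        (fun x (hx : x < 0) => hK x hx.ne) (mem_Iio.mpr (hfp 1 one_pos) : f 1 ∈ Iio 0)
        (by rw [hcommF]; exact hfn _ h1) x hx
    have hE : Exp f (fun x => x + f x) := by
      refine ⟨h.cont, h.contF, ?_, ?_, hs, by simp [hf0], fun x hx => hK x hx⟩
      · intro x
        exact hcommF x
      · intro x
        rcases lt_trichotomy x 0 with hx | hx | hx
        · have h2 := hfn x hx
          have h3 := hFn x hx
          rw [abs_of_pos h2, abs_of_neg hx, abs_of_pos h3]; ring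
        · subst hx; simp [hf0]
        · have h2 := hfp x hx
          have h3 := hFp x hx
          rw [abs_of_neg h2, abs_of_pos hx, abs_of_neg h3]; ring
    obtain ⟨α, hα, hlin⟩ := hE.linear
    refine ⟨-(1 + α), fun x => ?_⟩
    have h4 := hlin x
    rcases lt_trichotomy x 0 with hx | hx | hx
    · rw [abs_of_pos (hFn x hx), abs_of_neg hx] at h4
      linarith
    · subst hx; simp [hf0]
    · rw [abs_of_neg (hFp x hx), abs_of_pos hx] at h4
      linarith
  · -- `F` preserves the half-lines
    have hFp : ∀ x, 0 < x → 0 < x + f x := fun x hx =>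
      pos_on h.contF ordConnected_Ioi (s := Ioi 0)
        (fun x (hx : 0 < x) => hK x hx.ne') (mem_Ioi.mpr one_pos : (1 : ℝ) ∈ Ioi 0) h1 x hx
    have hFn : ∀ x, x < 0 → x + f x < 0 := fun x hx =>
      neg_on h.contF ordConnected_Iio (s := Iio 0)
        (fun x (hx : x < 0) => hK x hx.ne) (mem_Iio.mpr (hfp 1 one_pos) : f 1 ∈ Iio 0)
        (by rw [hcommF]; exact hfp _ h1) x hx
    have habs : ∀ x, |x + f x| + |f x| = |x| := by
      intro x
      rcases lt_trichotomy x 0 with hx | hx | hx
      · have h2 := hfn x hx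
        have h3 := hFn x hx
        rw [abs_of_pos h2, abs_of_neg hx, abs_of_neg h3]; ring
      · subst hx; simp [hf0]
      · have h2 := hfp x hx
        have h3 := hFp x hx
        rw [abs_of_neg h2, abs_of_pos hx, abs_of_pos h3]; ring
    have hcF : ∀ x, x ≠ 0 → |x + f x| < |x| := by
      intro x hx
      have := habs x
      have := abs_pos.mpr (h.fne hs hx)
      linarith
    have hcf : ∀ x, x ≠ 0 → |f x| < |x| := by
      intro x hx
      have := habs x
      have := abs_pos.mpr (hK x hx)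
      linarith
    have hcF' : ∀ x, |x + f x| ≤ |x| := by
      intro x
      have := habs x
      have := abs_nonneg (f x)
      linarith
    have hcf' : ∀ x, |f x| ≤ |x| := by
      intro x
      have := habs x
      have := abs_nonneg (x + f x)
      linarith
    -- injectivity of `F`
    have injF : Function.Injective (fun x => x + f x) := by
      intro u v huv
      by_contra hne
      simp only at huv
      set d := v - u with hd
      have hd0 : d ≠ 0 := sub_ne_zero.mpr (Ne.symm hne)
      refine no_descent (S := {u | u + f u = u + d + f (u + d)})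
        (isClosed_eq h.contF (h.contF.comp (continuous_id.add continuous_const)))
        ⟨u, by
          have e : u + d = v := by rw [hd]; ring
          show u + f u = u + d + f (u + d)
          rw [e]; exact huv⟩ d (fun u => f (u + d)) ?_
      intro w hw
      have hw' : w + f w = w + d + f (w + d) := hw
      have e1 : f (w + d) + d = f w := by linarith
      refine ⟨?_, ?_⟩
      · show f (w + d) + f (f (w + d)) = f (w + d) + d + f (f (w + d) + d)
        rw [e1, hcommF, hcommF, ← hw']
      · try beta_reduce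
        rw [e1]
        rcases eq_or_ne w 0 with h5 | h5
        · have h6 : w + d ≠ 0 := by rw [h5]; simpa using hd0
          have := hcf _ h6
          have := hcf' w
          linarith
        · have := hcf _ h5
          have := hcf' (w + d)
          linarith
    -- injectivity of `f`
    have injf : Function.Injective f := by
      intro u v huv
      by_contra hne
      set d := v - u with hd
      have hd0 : d ≠ 0 := sub_ne_zero.mpr (Ne.symm hne)
      refine no_descent (S := {u | f u = f (u + d)})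
        (isClosed_eq h.cont (h.cont.comp (continuous_id.add continuous_const)))
        ⟨u, by
          have e : u + d = v := by rw [hd]; ring
          show f u = f (u + d)
          rw [e]; exact huv⟩ d (fun u => u + f u) ?_
      intro w hw
      have hw' : f w = f (w + d) := hw
      have e1 : w + f w + d = w + d + f (w + d) := by rw [hw']; ring
      refine ⟨?_, ?_⟩
      · show f (w + f w) = f (w + f w + d)
        rw [e1, h.eq, h.eq, ← hw']
      · try beta_reduce
        rw [e1]
        rcases eq_or_ne w 0 with h5 | h5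
        · have h6 : w + d ≠ 0 := by rw [h5]; simpa using hd0
          have := hcF _ h6
          have := hcF' w
          linarith
        · have := hcF _ h5
          have := hcF' (w + d)
          linarith
    have hfanti : StrictAnti f := by
      rcases h.cont.strictMono_of_inj injf with hm | hm
      · have h2 := hm one_pos
        rw [hf0] at h2
        linarith [hfp 1 one_pos]
      · exact hm
    -- values of `f`
    have hval : ∀ {a b v : ℝ}, f a ≤ v → v ≤ f b → ∃ x, f x = v := fun {a b v} ha hb =>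
      mem_range_of_exists_le_of_exists_ge h.cont ⟨a, ha⟩ ⟨b, hb⟩
    have hsurj : Function.Surjective f ∨ Function.Surjective (fun x => x + f x) := by
      by_cases hb1 : ∀ M : ℝ, ∃ x, M ≤ x + f x
      · by_cases hb2 : ∀ M : ℝ, ∃ x, x + f x ≤ M
        · right
          intro y
          exact mem_range_of_exists_le_of_exists_ge h.contF (hb2 y) (hb1 y)
        · left
          push Not at hb2
          obtain ⟨M, hM⟩ := hb2
          have hup : ∀ y, ∃ b, y ≤ f b := fun y => ⟨M - y, by have := hM (M - y); linarith⟩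
          intro y
          apply mem_range_of_exists_le_of_exists_ge h.cont _ (hup y)
          set v := max 1 (f M - y) with hv
          have hv1 : 1 ≤ v := le_max_left _ _
          have hv2 : f M - y ≤ v := le_max_right _ _
          obtain ⟨b, hb⟩ := hup v
          obtain ⟨x, hx⟩ := hval (show f 0 ≤ v by rw [hf0]; linarith) hb
          have h2 := hcommF x
          have h3 := hfanti (hM x)
          rw [hx] at h2 h3
          exact ⟨v, by linarith⟩
      · left
        push Not at hb1
        obtain ⟨M, hM⟩ := hb1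
        have hdown : ∀ y, ∃ a, f a ≤ y := fun y => ⟨M - y, by have := hM (M - y); linarith⟩
        intro y
        apply mem_range_of_exists_le_of_exists_ge h.cont (hdown y) _
        set v := min (-1) (f M - y) with hv
        have hv1 : v ≤ -1 := min_le_left _ _
        have hv2 : v ≤ f M - y := min_le_right _ _
        obtain ⟨a, ha⟩ := hdown v
        obtain ⟨x, hx⟩ := hval ha (show v ≤ f 0 by rw [hf0]; linarith)
        have h2 := hcommF x
        have h3 := hfanti (hM x)
        rw [hx] at h2 h3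
        exact ⟨v, by linarith⟩
    have hsg : ∀ x, x ≠ 0 → 0 < x * (x + f x) ∧ x * f x < 0 := by
      intro x hx
      refine ⟨?_, hs x hx⟩
      rcases lt_or_gt_of_ne hx with h2 | h2
      · exact mul_pos_of_neg_of_neg h2 (hFn x h2)
      · exact mul_pos h2 (hFp x h2)
    rcases hsurj with hsj | hsj
    · have hC : Con (fun x => x + f x) f :=
        ⟨h.contF, h.cont, fun x => h.eq x, habs, fun x hx => hK x hx, fun x hx => h.fne hs hx,
          Or.inl hsg, injf, hsj⟩
      obtain ⟨α, -, -, hlin⟩ := hC.linear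
      refine ⟨α - 1, fun x => ?_⟩
      have h4 := hlin x
      rcases lt_trichotomy x 0 with hx | hx | hx
      · rw [abs_of_neg (hFn x hx), abs_of_neg hx] at h4
        linarith
      · subst hx; simp [hf0]
      · rw [abs_of_pos (hFp x hx), abs_of_pos hx] at h4
        linarith
    · have hC : Con f (fun x => x + f x) :=
        ⟨h.cont, h.contF, fun x => (h.eq x).symm, fun x => by rw [add_comm]; exact habs x,
          fun x hx => h.fne hs hx, fun x hx => hK x hx,
          Or.inr fun x hx => ⟨(hsg x hx).2, (hsg x hx).1⟩, injF, hsj⟩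
      obtain ⟨α, -, -, hlin⟩ := hC.linear
      refine ⟨-α, fun x => ?_⟩
      have h4 := hlin x
      rcases lt_trichotomy x 0 with hx | hx | hx
      · rw [abs_of_pos (hfn x hx), abs_of_neg hx] at h4
        linarith
      · subst hx; simp [hf0]
      · rw [abs_of_neg (hfp x hx), abs_of_pos hx] at h4
        linarith

/-- Behaviour on the right half-line: linear with a nonnegative slope, or the solution is linear. -/
lemma right : (∃ a : ℝ, 0 ≤ a ∧ ∀ x, 0 ≤ x → f x = a * x) ∨ ∃ a : ℝ, ∀ x, f x = a * x := by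
  rcases h.germ with hg | hg | hg
  · obtain ⟨a, ha, hlin⟩ := h.lin_of_pos (h.pos_of_germ hg)
    exact Or.inl ⟨a, ha.le, hlin⟩
  · exact Or.inr (h.neg_linear (h.neg_case hg))
  · exact Or.inl ⟨0, le_rfl, fun x hx => by rw [h.zero_of_germ hg x hx, zero_mul]⟩

end Sol

/-- **Classification** of the continuous solutions. -/
theorem classification (f : ℝ → ℝ) (hf : Continuous f) :
    (∀ x, f (x + f x) = f x + f (f x)) ↔
      (∃ a : ℝ, ∀ x, f x = a * x) ∨
      (∃ a b : ℝ, 0 ≤ a ∧ 0 ≤ b ∧ (∀ x, 0 ≤ x → f x = a * x) ∧ ∀ x, x ≤ 0 → f x = b * x) := by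
  constructor
  · intro heq
    have h : Sol f := ⟨hf, heq⟩
    rcases h.right with ⟨a, ha, hlin⟩ | h1
    · rcases h.reflect.right with ⟨b, hb, hlin'⟩ | ⟨b, hlin'⟩
      · refine Or.inr ⟨a, b, ha, hb, hlin, ?_⟩
        intro x hx
        have := hlin' (-x) (by linarith)
        simp only [neg_neg] at this
        linarith
      · refine Or.inl ⟨b, fun x => ?_⟩
        have := hlin' (-x)
        simp only [neg_neg] at this
        linarith
    · exact Or.inl h1
  · rintro (⟨a, ha⟩ | ⟨a, b, ha, hb, h1, h2⟩)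
    · intro x
      simp only [ha]
      ring
    · intro x
      rcases le_total 0 x with hx | hx
      · have h3 : 0 ≤ a * x := mul_nonneg ha hx
        rw [h1 x hx, h1 (x + a * x) (by linarith), h1 (a * x) h3]
        ring
      · have h3 : b * x ≤ 0 := mul_nonpos_of_nonneg_of_nonpos hb hx
        rw [h2 x hx, h2 (x + b * x) (by linarith), h2 (b * x) h3]
        ring

end Pool.Agent.K4H45.FE
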